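import Pool.Agent.Results.MP_a52643_an.HyperbolicExcess
import Pool.Agent.Results.MP_a52643_an.MesoscopicMass
import Pool.Agent.TH294.RS.Met
import Pool.Agent.TH294.RG.SpecH
import Pool.Agent.K9h37.GF.Bump

/-!
# The global fourth moment controls all local fourth moments (MP_a54f13_nt)

The plane is `ℂ`, with the upper half plane `HH` and `dμ = dx dy / y²`. `dx f z`, `dy f z` are the
partial derivatives `fderiv ℝ f z 1`, `fderiv ℝ f z I`; `TF U φ` says that `φ : ℂ → ℝ` is smooth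
with compact support contained in `U`. `U` is an open subset of `HH` of finite area, for instance
the interior `FD` of the standard fundamental domain of the modular group, and `excess U f` is the
deviation `∫_U f⁴ dμ - 3 μ(U)` of the *global* fourth moment from its Gaussian value. All hypotheses
on `f` concern `U` only, which need not be connected.

The theorem bounds, for quantum uniquely ergodic eigenfunctions, the deviation from the Gaussian
value of

* `∫_U ψ f⁴ dμ` for every bounded continuous `ψ`, not necessarily of compact support,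
* all local fourth moments of the frame derivatives of `f`,
* the local mass in discs, in mean square, at all scales above the wavelength

by the excess of the global fourth moment alone, up to `o(1)`.
-/

set_option autoImplicit false
open MeasureTheory Filter Topology Complex
open scoped ContDiff ENNReal

namespace Pool.Agent.Results.MP_a54f13_nt.GlobalFourthMoment

open Pool.Agent.W745.RW (TF dx dy lap)

noncomputable section

/-- the open upper half plane -/
def HH : Set ℂ := {z | 0 < z.im}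

/-- the interior of the standard fundamental domain of the modular group -/
def FD : Set ℂ := {z | 0 < z.im ∧ |z.re| < 1 / 2 ∧ 1 < ‖z‖}

/-- the eigenvalue `1/4 + t²` -/
def ev (t : ℝ) : ℝ := 1 / 4 + t ^ 2

/-- `f` is a smooth real solution of `-y² (∂x² + ∂y²) f = (1/4 + t²) f` on `U` -/
def Eig (U : Set ℂ) (t : ℝ) (f : ℂ → ℝ) : Prop :=
  ContDiffOn ℝ ∞ f U ∧ ∀ z ∈ U, -(z.im ^ 2 * (dx (dx f) z + dy (dy f) z)) = ev t * f z

/-- the operator `f ↦ lam^{-1/2} y (∂x f - i ∂y f)` -/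
def RO (lam : ℝ) (f : ℂ → ℂ) (z : ℂ) : ℂ :=
  ((z.im / √lam : ℝ) : ℂ) * (dx f z - I * dy f z)

/-- quantum unique ergodicity in microlocal form on `U`: for test functions `φ` on `U`,
`∫ φ f (RO^k f) dμ → ∫ φ dμ` for `k = 0`, and `→ 0` for `k ≥ 1` -/
def QUE (U : Set ℂ) (t : ℕ → ℝ) (f : ℕ → ℂ → ℝ) : Prop :=
  ∀ φ, TF U φ → ∀ k : ℕ, Tendsto (fun n => ∫ z, ((φ z / z.im ^ 2 : ℝ) : ℂ) *
    ((f n z : ℂ) * (RO (ev (t n)))^[k] (fun w => (f n w : ℂ)) z)) atTop
    (𝓝 (if k = 0 then ((∫ z, φ z / z.im ^ 2 : ℝ) : ℂ) else 0))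

/-- the integral `∫_U g dμ` -/
def II (U : Set ℂ) (g : ℂ → ℝ) : ℝ := ∫ z in U, g z / z.im ^ 2

/-- the excess `∫_U f⁴ dμ - 3 μ(U)` of the global fourth moment -/
def excess (U : Set ℂ) (f : ℂ → ℝ) : ℝ := II U (fun z => f z ^ 4) - 3 * II U (fun _ => 1)

/-- `W k = RO^k u` for `k ≥ 0` and `W k = (-1)^k conj (RO^|k| u)` for `k < 0` -/
def W (lam : ℝ) (u : ℂ → ℝ) : ℤ → ℂ → ℂ
  | Int.ofNat k => (RO lam)^[k] (fun w => (u w : ℂ))
  | Int.negSucc k => fun z => (-1) ^ (k + 1) *
      (starRingEnd ℂ) ((RO lam)^[k + 1] (fun w => (u w : ℂ)) z)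

/-- the local fourth moment `∫ φ W_a W_b W_c W_d dμ` -/
def M (lam : ℝ) (u : ℂ → ℝ) (φ : ℂ → ℝ) (a b c d : ℤ) : ℂ :=
  ∫ z, ((φ z / z.im ^ 2 : ℝ) : ℂ) * (W lam u a z * W lam u b z * W lam u c z * W lam u d z)

/-- the covariance `E[W a W b]` of the isotropic random wave -/
def C (a b : ℤ) : ℂ := if a + b = 0 then (-1) ^ a.natAbs else 0

/-- the Gaussian fourth moment `E[W a W b W c W d]` -/
def G (a b c d : ℤ) : ℂ := C a b * C c d + C a c * C b d + C a d * C b c

/-- the mean of `f` over the disc with centre `z` and radius `r` -/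
def mean (r : ℝ) (f : ℂ → ℝ) (z : ℂ) : ℝ :=
  1 / (Real.pi * r ^ 2) * ∫ w in Metric.ball z r, f w

lemma ev_pos (t : ℝ) : 0 < ev t := by unfold ev; positivity

lemma him : ContDiff ℝ ∞ (fun z : ℂ => z.im) := imCLM.contDiff

lemma hinv {U : Set ℂ} (hUH : U ⊆ HH) : ContDiffOn ℝ ∞ (fun z : ℂ => (z.im ^ 2)⁻¹) U :=
  (him.pow 2).contDiffOn.inv fun z hz => by
    have : 0 < z.im := hUH hz
    positivity

/-! ### The lower bound on `U` -/

lemma lowerL {t : ℕ → ℝ} (ht : Tendsto t atTop atTop) {f : ℕ → ℂ → ℝ} {U : Set ℂ}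
    (hU : IsOpen U) (hUH : U ⊆ HH) (hf : ∀ n, Eig U (t n) (f n)) (hq : QUE U t f)
    {ψ : ℂ → ℝ} (hψ : ContinuousOn ψ U) (h0 : ∀ z ∈ U, 0 ≤ ψ z) :
    ENNReal.ofReal (3 ^ 1) * ∫⁻ z in U, ENNReal.ofReal (ψ z / z.im ^ 2) ≤
      liminf (fun n => ∫⁻ z in U,
        ENNReal.ofReal (ψ z * f n z ^ (2 * (1 + 1)) / z.im ^ 2)) atTop := by
  have hRD : ∀ n, RO (ev (t n)) =
      Pool.Agent.TH294.RS.DP (fun z => z.im) (1 / √(ev (t n))) := by
    intro n
    funext g z
    simp only [RO, Pool.Agent.TH294.RS.DP, Pool.Agent.TH294.RS.dd]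
    push_cast
    ring
  have hraw : Pool.Agent.TH294.RS.Raw U (fun z => z.im) (fun n => 1 / √(ev (t n))) f := by
    refine ⟨fun n => by have := ev_pos (t n); positivity, ?_, him.contDiffOn,
      fun z hz => hUH hz, fun n => (hf n).1, fun n z hz => ?_, fun φ hφ k => ?_⟩
    · have h1 : Tendsto (fun n => ev (t n)) atTop atTop :=
        tendsto_atTop_add_const_left _ _ ((tendsto_pow_atTop two_ne_zero).comp ht)
      have h2 : Tendsto (fun n => √(ev (t n))) atTop atTop :=
        Real.tendsto_sqrt_atTop.comp h1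
      exact (h2.inv_tendsto_atTop).congr (fun n => by simp [one_div])
    · have h1 := (hf n).2 z hz
      have h5 := ev_pos (t n)
      have h2 : (1 / √(ev (t n))) ^ 2 = 1 / ev (t n) := by
        rw [div_pow, Real.sq_sqrt h5.le, one_pow]
      show (1 / √(ev (t n))) ^ 2 * (z.im ^ 2 * (dx (dx (f n)) z + dy (dy (f n)) z)) +
        f n z = 0
      rw [h2]
      have h3 : z.im ^ 2 * (dx (dx (f n)) z + dy (dy (f n)) z) =
          - (ev (t n) * f n z) := by linarith
      rw [h3]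
      field_simp
      ring
    · have hφ' := Pool.Agent.TH294.RS.TF.mulc hU hφ (him.pow 2).contDiffOn
      have h1 := hq _ hφ' k
      have e : ∀ z : ℂ, φ z * z.im ^ 2 / z.im ^ 2 = φ z := by
        intro z
        by_cases hz : z ∈ U
        · have : z.im ≠ 0 := ne_of_gt (hUH hz)
          field_simp
        · rw [Pool.Agent.TH294.RS.TF.zero hφ hz]; simp
      simp only [e] at h1
      refine h1.congr fun n => ?_
      rw [hRD n]
  have him0 : ∀ z ∈ U, z.im ^ 2 ≠ 0 := fun z hz => by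
    have : 0 < z.im := hUH hz
    positivity
  have key := hraw.fin hU 1 hU (le_refl U) (w := fun z => ψ z / z.im ^ 2)
    (hψ.div (him.continuous.continuousOn.pow 2) him0)
    (fun z hz => div_nonneg (h0 z hz) (sq_nonneg _))
  refine key.trans_eq ?_
  congr 1
  funext n
  refine lintegral_congr fun z => ?_
  congr 1
  ring

lemma lowerU {t : ℕ → ℝ} (ht : Tendsto t atTop atTop) {f : ℕ → ℂ → ℝ} {U : Set ℂ}
    (hU : IsOpen U) (hUH : U ⊆ HH)
    (hf : ∀ n, Eig U (t n) (f n)) (hq : QUE U t f)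
    {ψ : ℂ → ℝ} (hψ : ContinuousOn ψ U) (h0 : ∀ z ∈ U, 0 ≤ ψ z)
    (i0 : IntegrableOn (fun z => ψ z / z.im ^ 2) U)
    (i4 : ∀ n, IntegrableOn (fun z => ψ z * f n z ^ 4 / z.im ^ 2) U) {ε : ℝ} (hε : 0 < ε) :
    ∀ᶠ n in atTop, 3 * II U ψ - ε ≤ II U (fun z => ψ z * f n z ^ 4) := by
  have key := lowerL ht hU hUH hf hq hψ h0
  have p0 : 0 ≤ II U ψ := setIntegral_nonneg hU.measurableSet fun z hz =>
    div_nonneg (h0 z hz) (sq_nonneg _)
  have p4 : ∀ n, 0 ≤ II U (fun z => ψ z * f n z ^ 4) := fun n =>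
    setIntegral_nonneg hU.measurableSet fun z hz => by
      have := h0 z hz
      positivity
  have e0 : ∫⁻ z in U, ENNReal.ofReal (ψ z / z.im ^ 2) = ENNReal.ofReal (II U ψ) := by
    unfold II
    rw [ofReal_integral_eq_lintegral_ofReal i0]
    filter_upwards [ae_restrict_mem hU.measurableSet] with z hz
    exact div_nonneg (h0 z hz) (sq_nonneg _)
  have e4 : ∀ n, ∫⁻ z in U, ENNReal.ofReal (ψ z * f n z ^ (2 * (1 + 1)) / z.im ^ 2) =
      ENNReal.ofReal (II U (fun z => ψ z * f n z ^ 4)) := by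
    intro n
    unfold II
    rw [ofReal_integral_eq_lintegral_ofReal (i4 n)]
    filter_upwards [ae_restrict_mem hU.measurableSet] with z hz
    have := h0 z hz
    show 0 ≤ ψ z * f n z ^ 4 / z.im ^ 2
    positivity
  rw [e0] at key
  simp only [e4] at key
  rw [← ENNReal.ofReal_mul (by norm_num)] at key
  by_cases hc : 3 * II U ψ - ε < 0
  · exact Eventually.of_forall fun n => hc.le.trans (p4 n)
  · rw [not_lt] at hc
    have h1 : ENNReal.ofReal (3 * II U ψ - ε) < ENNReal.ofReal (3 ^ 1 * II U ψ) := by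
      rw [ENNReal.ofReal_lt_ofReal_iff (by linarith)]
      linarith
    have h2 := eventually_lt_of_lt_liminf (h1.trans_le key)
    refine h2.mono fun n hn => ?_
    have h3 := (ENNReal.ofReal_lt_ofReal_iff_of_nonneg hc).1 hn
    exact h3.le

/-! ### Bounded continuous weights -/

lemma intB {U : Set ℂ} (hU : IsOpen U) {ψ g : ℂ → ℝ} {B : ℝ} (hψ : ContinuousOn ψ U)
    (hB : ∀ z ∈ U, |ψ z| ≤ B) (hg : IntegrableOn (fun z => g z / z.im ^ 2) U) :
    IntegrableOn (fun z => ψ z * g z / z.im ^ 2) U := by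
  have h1 : IntegrableOn (fun z => ψ z * (g z / z.im ^ 2)) U := by
    refine Integrable.bdd_mul (c := B) hg (hψ.aestronglyMeasurable hU.measurableSet) ?_
    filter_upwards [ae_restrict_mem hU.measurableSet] with z hz
    rw [Real.norm_eq_abs]
    exact hB z hz
  refine h1.congr_fun (fun z _ => ?_) hU.measurableSet
  show ψ z * (g z / z.im ^ 2) = ψ z * g z / z.im ^ 2
  rw [mul_div_assoc]

lemma weight2 {t : ℕ → ℝ} (ht : Tendsto t atTop atTop) {f : ℕ → ℂ → ℝ} {U : Set ℂ}
    (hU : IsOpen U) (hUH : U ⊆ HH)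
    (hf : ∀ n, Eig U (t n) (f n)) (hq : QUE U t f)
    (fin : IntegrableOn (fun z => 1 / z.im ^ 2) U)
    (f4 : ∀ n, IntegrableOn (fun z => f n z ^ 4 / z.im ^ 2) U)
    {ψ : ℂ → ℝ} {a b : ℝ} (hψ : ContinuousOn ψ U) (ha : ∀ z ∈ U, a ≤ ψ z)
    (hb : ∀ z ∈ U, ψ z ≤ b) {ε : ℝ} (hε : 0 < ε) :
    ∀ᶠ n in atTop, a * excess U (f n) - ε ≤ II U (fun z => ψ z * f n z ^ 4) - 3 * II U ψ ∧
      II U (fun z => ψ z * f n z ^ 4) - 3 * II U ψ ≤ b * excess U (f n) + ε := by
  have hB : ∀ z ∈ U, |ψ z| ≤ max |a| |b| := fun z hz =>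
    abs_le_max_abs_abs (ha z hz) (hb z hz)
  have iψ : IntegrableOn (fun z => ψ z / z.im ^ 2) U := by
    have := intB hU (g := fun _ => 1) hψ hB fin
    simpa only [mul_one] using this
  have iψ4 : ∀ n, IntegrableOn (fun z => ψ z * f n z ^ 4 / z.im ^ 2) U := fun n =>
    intB hU hψ hB (f4 n)
  have cst : ∀ (c : ℝ) n, IntegrableOn (fun z => c * (f n z ^ 4 / z.im ^ 2)) U := fun c n =>
    (f4 n).const_mul c
  have cst1 : ∀ c : ℝ, IntegrableOn (fun z : ℂ => c * (1 / z.im ^ 2)) U := fun c =>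
    fin.const_mul c
  -- the two weights `ψ - a` and `b - ψ`
  have w1 := lowerU ht hU hUH hf hq (ψ := fun z => ψ z - a) (hψ.sub continuousOn_const)
    (fun z hz => by have := ha z hz; linarith)
    ((iψ.sub (cst1 a)).congr_fun (fun z _ => by
      simp only [Pi.sub_apply]; ring) hU.measurableSet)
    (fun n => ((iψ4 n).sub (cst a n)).congr_fun (fun z _ => by
      simp only [Pi.sub_apply]; ring) hU.measurableSet) hε
  have w2 := lowerU ht hU hUH hf hq (ψ := fun z => b - ψ z) (continuousOn_const.sub hψ)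
    (fun z hz => by have := hb z hz; linarith)
    (((cst1 b).sub iψ).congr_fun (fun z _ => by
      simp only [Pi.sub_apply]; ring) hU.measurableSet)
    (fun n => ((cst b n).sub (iψ4 n)).congr_fun (fun z _ => by
      simp only [Pi.sub_apply]; ring) hU.measurableSet) hε
  have a1 : II U (fun z => ψ z - a) = II U ψ - a * II U (fun _ => 1) := by
    unfold II
    rw [← integral_const_mul, ← integral_sub iψ (cst1 a)]
    refine setIntegral_congr_fun hU.measurableSet fun z _ => ?_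
    simp only; ring
  have a2 : II U (fun z => b - ψ z) = b * II U (fun _ => 1) - II U ψ := by
    unfold II
    rw [← integral_const_mul, ← integral_sub (cst1 b) iψ]
    refine setIntegral_congr_fun hU.measurableSet fun z _ => ?_
    simp only; ring
  have b1 : ∀ n, II U (fun z => (ψ z - a) * f n z ^ 4) =
      II U (fun z => ψ z * f n z ^ 4) - a * II U (fun z => f n z ^ 4) := by
    intro n
    unfold II
    rw [← integral_const_mul, ← integral_sub (iψ4 n) (cst a n)]
    refine setIntegral_congr_fun hU.measurableSet fun z _ => ?_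
    simp only; ring
  have b2 : ∀ n, II U (fun z => (b - ψ z) * f n z ^ 4) =
      b * II U (fun z => f n z ^ 4) - II U (fun z => ψ z * f n z ^ 4) := by
    intro n
    unfold II
    rw [← integral_const_mul, ← integral_sub (cst b n) (iψ4 n)]
    refine setIntegral_congr_fun hU.measurableSet fun z _ => ?_
    simp only; ring
  filter_upwards [w1, w2] with n h1 h2
  rw [a1, b1] at h1
  rw [a2, b2] at h2
  unfold excess
  constructor <;> linarith

lemma weight {t : ℕ → ℝ} (ht : Tendsto t atTop atTop) {f : ℕ → ℂ → ℝ} {U : Set ℂ}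
    (hU : IsOpen U) (hUH : U ⊆ HH)
    (hf : ∀ n, Eig U (t n) (f n)) (hq : QUE U t f)
    (fin : IntegrableOn (fun z => 1 / z.im ^ 2) U)
    (f4 : ∀ n, IntegrableOn (fun z => f n z ^ 4 / z.im ^ 2) U)
    {ψ : ℂ → ℝ} {B : ℝ} (hψ : ContinuousOn ψ U) (hB : ∀ z ∈ U, |ψ z| ≤ B)
    {ε : ℝ} (hε : 0 < ε) :
    ∀ᶠ n in atTop, |II U (fun z => ψ z * f n z ^ 4) - 3 * II U ψ| ≤ B * excess U (f n) + ε := by
  refine (weight2 ht hU hUH hf hq fin f4 (a := -B) (b := B) hψ
    (fun z hz => (abs_le.1 (hB z hz)).1) (fun z hz => (abs_le.1 (hB z hz)).2) hε).mono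
    fun n hn => ?_
  rw [abs_le]
  constructor <;> linarith [hn.1, hn.2]

/-! ### Test functions and derivatives -/

lemma RO_smooth {U : Set ℂ} (hU : IsOpen U) (lam : ℝ) {F : ℂ → ℂ} (hF : ContDiffOn ℝ ∞ F U) :
    ContDiffOn ℝ ∞ (RO lam F) U := by
  have h1 : ∀ v : ℂ, ContDiffOn ℝ ∞ (fun z => fderiv ℝ F z v) U := fun v =>
    (hF.fderiv_of_isOpen hU (by simp)).clm_apply contDiffOn_const
  have h2 : ContDiffOn ℝ ∞ (fun z : ℂ => ((z.im / √lam : ℝ) : ℂ)) U :=
    ofRealCLM.contDiff.comp_contDiffOn (him.div_const _).contDiffOn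
  exact h2.mul ((h1 1).sub (contDiffOn_const.mul (h1 I)))

lemma W_cont {U : Set ℂ} (hU : IsOpen U) (lam : ℝ) {u : ℂ → ℝ} (hu : ContDiffOn ℝ ∞ u U)
    (a : ℤ) : ContinuousOn (W lam u a) U := by
  have h0 : ∀ k : ℕ, ContDiffOn ℝ ∞ ((RO lam)^[k] (fun w => (u w : ℂ))) U := by
    intro k
    induction k with
    | zero => exact ofRealCLM.contDiff.comp_contDiffOn hu
    | succ k ih =>
      rw [Function.iterate_succ_apply']
      exact RO_smooth hU lam ih
  cases a with
  | ofNat k => exact (h0 k).continuousOn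
  | negSucc k =>
    exact continuousOn_const.mul (continuous_star.comp_continuousOn (h0 (k + 1)).continuousOn)

lemma M_int {U : Set ℂ} (hU : IsOpen U) (hUH : U ⊆ HH) (lam : ℝ) {u : ℂ → ℝ}
    (hu : ContDiffOn ℝ ∞ u U) {φ : ℂ → ℝ} (hφ : TF U φ) (a b c d : ℤ) : Integrable (fun z => ((φ z / z.im ^ 2 : ℝ) : ℂ) *
      (W lam u a z * W lam u b z * W lam u c z * W lam u d z)) := by
  have h1 := Pool.Agent.TH294.RS.TF.mulc hU hφ (hinv hUH)
  have h2 := Pool.Agent.TH294.RS.TF.cint h1 ((((W_cont hU lam hu a).mul (W_cont hU lam hu b)).mul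
    (W_cont hU lam hu c)).mul (W_cont hU lam hu d))
  refine h2.congr (ae_of_all _ fun z => ?_)
  simp only [div_eq_mul_inv]
  rfl

lemma mass_eq {U : Set ℂ} {φ : ℂ → ℝ} (hφ : TF U φ) : ∫ z, φ z / z.im ^ 2 = II U φ := by
  unfold II
  refine (setIntegral_eq_integral_of_forall_compl_eq_zero fun z hz => ?_).symm
  rw [Pool.Agent.TH294.RS.TF.zero hφ hz, zero_div]

lemma mass4_eq {U : Set ℂ} {φ : ℂ → ℝ} (hφ : TF U φ) (u : ℂ → ℝ) :
    ∫ z, φ z / z.im ^ 2 * u z ^ 4 = II U (fun z => φ z * u z ^ 4) := by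
  unfold II
  rw [← setIntegral_eq_integral_of_forall_compl_eq_zero (s := U) fun z hz => ?_]
  · congr 1; funext z; ring
  · rw [Pool.Agent.TH294.RS.TF.zero hφ hz, zero_div, zero_mul]

lemma TFmono {U V : Set ℂ} (h : U ⊆ V) {φ : ℂ → ℝ} (hφ : TF U φ) : TF V φ :=
  ⟨hφ.1, hφ.2.1, hφ.2.2.trans h⟩

lemma jets {t : ℕ → ℝ} (ht : Tendsto t atTop atTop) {f : ℕ → ℂ → ℝ} {U : Set ℂ}
    (hU : IsOpen U) (hUH : U ⊆ HH)
    (hf : ∀ n, Eig U (t n) (f n)) (hq : QUE U t f)
    (fin : IntegrableOn (fun z => 1 / z.im ^ 2) U)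
    (f4 : ∀ n, IntegrableOn (fun z => f n z ^ 4 / z.im ^ 2) U)
    {φ : ℂ → ℝ} {B : ℝ} (hφ : TF U φ) (hB : ∀ z, |φ z| ≤ B) (a b c d : ℤ)
    {ε : ℝ} (hε : 0 < ε) :
    ∀ᶠ n in atTop, ‖M (ev (t n)) (f n) φ a b c d - G a b c d * (II U φ : ℝ)‖ ≤
      B * excess U (f n) + ε := by
  obtain ⟨χ, hχ, χ0, χ1, χK⟩ := Pool.Agent.K9h37.GF.bumpK hU hφ.2.1.isCompact hφ.2.2
  have B0 : 0 ≤ B := (abs_nonneg _).trans (hB 0)
  have hll : Tendsto (fun n => ev (t n)) atTop atTop :=
    tendsto_atTop_add_const_left _ _ ((tendsto_pow_atTop two_ne_zero).comp ht)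
  -- the two nonnegative test functions
  obtain ⟨p, hp⟩ : ∃ p : ℂ → ℝ, ∀ z, p z = (B * χ z + φ z) / 2 := ⟨_, fun _ => rfl⟩
  obtain ⟨q, hq'⟩ : ∃ q : ℂ → ℝ, ∀ z, q z = (B * χ z - φ z) / 2 := ⟨_, fun _ => rfl⟩
  have ab : ∀ z, |φ z| ≤ B * χ z := by
    intro z
    by_cases hz : z ∈ tsupport φ
    · rw [χK z hz, mul_one]; exact hB z
    · rw [image_eq_zero_of_notMem_tsupport hz, abs_zero]
      exact mul_nonneg B0 (χ0 z)
  have p0 : ∀ z, 0 ≤ p z := fun z => by
    rw [hp]; have := (abs_le.1 (ab z)).1; linarith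
  have q0 : ∀ z, 0 ≤ q z := fun z => by
    rw [hq']; have := (abs_le.1 (ab z)).2; linarith
  have supp : ∀ g : ℂ → ℝ, ContDiff ℝ ∞ g → (∀ z, χ z = 0 → φ z = 0 → g z = 0) → TF U g := by
    intro g hg h0
    have hs : Function.support g ⊆ tsupport χ ∪ tsupport φ := by
      intro z hz
      by_contra h
      rw [Set.mem_union, not_or] at h
      exact hz (h0 z (image_eq_zero_of_notMem_tsupport h.1) (image_eq_zero_of_notMem_tsupport h.2))
    have hc : IsCompact (tsupport χ ∪ tsupport φ) := hχ.2.1.isCompact.union hφ.2.1.isCompact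
    exact ⟨hg, HasCompactSupport.of_support_subset_isCompact hc hs,
      (closure_minimal hs hc.isClosed).trans (Set.union_subset hχ.2.2 hφ.2.2)⟩
  have Tp : TF U p := by
    refine supp p ?_ fun z h1 h2 => by rw [hp, h1, h2]; ring
    have : p = fun z => (B * χ z + φ z) / 2 := funext hp
    rw [this]
    exact ((contDiff_const.mul hχ.1).add hφ.1).div_const _
  have Tq : TF U q := by
    refine supp q ?_ fun z h1 h2 => by rw [hq', h1, h2]; ring
    have : q = fun z => (B * χ z - φ z) / 2 := funext hq'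
    rw [this]
    exact ((contDiff_const.mul hχ.1).sub hφ.1).div_const _
  have ex : ∀ {g : ℂ → ℝ}, TF U g → (∀ z, 0 ≤ g z) → ∀ᶠ n in atTop,
      ‖M (ev (t n)) (f n) g a b c d - G a b c d * (II U g : ℝ)‖ ≤
        (II U (fun z => g z * f n z ^ 4) - 3 * II U g) + ε / 3 := by
    intro g hg g0
    have key := Pool.Agent.Results.MP_a52643_an.HyperbolicExcess.result U hU (fun z hz => hUH hz)
      (fun n => ev (t n)) (fun n => ev_pos _) hll f (fun n => (hf n).1)
      (fun n z hz => by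
        have h1 := (hf n).2 z hz
        show z.im ^ 2 * (dx (dx (f n)) z + dy (dy (f n)) z) + ev (t n) * f n z = 0
        linarith) hq g hg g0 a b c d (ε / 3) (by positivity)
    refine key.mono fun n hn => ?_
    have e1 : Pool.Agent.Results.MP_a52643_an.HyperbolicExcess.mass g = II U g := mass_eq hg
    rw [e1, mass4_eq hg] at hn
    have hW : ∀ k, Pool.Agent.Results.MP_a52643_an.HyperbolicExcess.W (ev (t n)) (f n) k =
        W (ev (t n)) (f n) k := by
      intro k
      cases k with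
      | ofNat k => rfl
      | negSucc k => rfl
    have e2 : Pool.Agent.Results.MP_a52643_an.HyperbolicExcess.M (ev (t n)) (f n) g a b c d =
        M (ev (t n)) (f n) g a b c d := by
      unfold Pool.Agent.Results.MP_a52643_an.HyperbolicExcess.M M
      simp only [hW]
    rw [e2] at hn
    exact hn
  have cχ : ContinuousOn (fun z => B * χ z) U := (continuous_const.mul hχ.1.continuous).continuousOn
  have wt := weight ht hU hUH hf hq fin f4 (ψ := fun z => B * χ z) (B := B) cχ (fun z _ => by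
    rw [abs_of_nonneg (mul_nonneg B0 (χ0 z))]
    exact mul_le_of_le_one_right B0 (χ1 z)) (ε := ε / 3) (by positivity)
  have bd : ∀ {g : ℂ → ℝ}, TF U g → ∃ D, ∀ z ∈ U, |g z| ≤ D := fun {g} hg => by
    obtain ⟨D, hD⟩ := hg.2.1.exists_bound_of_continuous hg.1.continuous
    exact ⟨D, fun z _ => hD z⟩
  have ig : ∀ {g : ℂ → ℝ}, TF U g → ∀ n, IntegrableOn (fun z => g z * f n z ^ 4 / z.im ^ 2) U :=
    fun {g} hg n => by
      obtain ⟨D, hD⟩ := bd hg
      exact intB hU hg.1.continuous.continuousOn hD (f4 n)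
  have i1 : ∀ {g : ℂ → ℝ}, TF U g → IntegrableOn (fun z => g z / z.im ^ 2) U :=
    fun {g} hg => by
      obtain ⟨D, hD⟩ := bd hg
      have := intB hU (g := fun _ => 1) hg.1.continuous.continuousOn hD fin
      simpa only [mul_one] using this
  have s1 : II U p + II U q = II U (fun z => B * χ z) := by
    unfold II
    rw [← integral_add (i1 Tp) (i1 Tq)]
    refine setIntegral_congr_fun hU.measurableSet fun z _ => ?_
    simp only [hp, hq']; ring
  have s2 : II U p - II U q = II U φ := by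
    unfold II
    rw [← integral_sub (i1 Tp) (i1 Tq)]
    refine setIntegral_congr_fun hU.measurableSet fun z _ => ?_
    simp only [hp, hq']; ring
  have s4 : ∀ n, II U (fun z => p z * f n z ^ 4) + II U (fun z => q z * f n z ^ 4) =
      II U (fun z => B * χ z * f n z ^ 4) := by
    intro n
    unfold II
    rw [← integral_add (ig Tp n) (ig Tq n)]
    refine setIntegral_congr_fun hU.measurableSet fun z _ => ?_
    simp only [hp, hq']; ring
  have sM : ∀ n, M (ev (t n)) (f n) φ a b c d =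
      M (ev (t n)) (f n) p a b c d - M (ev (t n)) (f n) q a b c d := by
    intro n
    unfold M
    rw [← integral_sub (M_int hU hUH _ (hf n).1 Tp a b c d)
      (M_int hU hUH _ (hf n).1 Tq a b c d)]
    congr 1; funext z
    rw [← sub_mul, ← ofReal_sub, ← sub_div, hp, hq']
    congr 3; ring
  filter_upwards [ex Tp p0, ex Tq q0, wt] with n h1 h2 h3
  have e : M (ev (t n)) (f n) φ a b c d - G a b c d * (II U φ : ℝ) =
      (M (ev (t n)) (f n) p a b c d - G a b c d * (II U p : ℝ)) -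
      (M (ev (t n)) (f n) q a b c d - G a b c d * (II U q : ℝ)) := by
    rw [sM, ← s2]; push_cast; ring
  rw [e]
  refine (norm_sub_le _ _).trans ?_
  have h4 := (abs_le.1 h3).2
  have h5 := s4 n
  linarith

/-! ### The local mass above the wavelength -/

lemma parU (z : ℂ) : Pool.Agent.Results.MP_a52643_an.MesoscopicMass.parallel
    (Pool.Agent.TH294.RG.unif z) = 0 := by
  have hz : Pool.Agent.TH294.RG.unif z = Pool.Agent.TH294.RG.mu0 := by
    simp only [Pool.Agent.TH294.RG.unif, ProbabilityTheory.Kernel.const_apply]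
  rw [hz]
  unfold Pool.Agent.Results.MP_a52643_an.MesoscopicMass.parallel Measure.real
  have hm : MeasurableSet {p : ℝ × ℝ | Real.sin (p.1 - p.2) = 0} :=
    (isClosed_eq (by fun_prop) continuous_const).measurableSet
  have h0 : (Pool.Agent.TH294.RG.mu0.prod Pool.Agent.TH294.RG.mu0)
      {p : ℝ × ℝ | Real.sin (p.1 - p.2) = 0} = 0 := by
    rw [Measure.measure_prod_null hm]
    refine ae_of_all _ fun x => ?_
    have hc : (Prod.mk x ⁻¹' {p : ℝ × ℝ | Real.sin (p.1 - p.2) = 0}).Countable := by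
      have : Prod.mk x ⁻¹' {p : ℝ × ℝ | Real.sin (p.1 - p.2) = 0} ⊆
          Set.range (fun n : ℤ => x - n * Real.pi) := by
        intro y hy
        have hy' : Real.sin (x - y) = 0 := hy
        obtain ⟨n, hn⟩ := Real.sin_eq_zero_iff.1 hy'
        exact ⟨n, by simp only; linarith⟩
      exact (Set.countable_range _).mono this
    show Pool.Agent.TH294.RG.mu0 _ = 0
    unfold Pool.Agent.TH294.RG.mu0
    rw [Measure.smul_apply, smul_eq_mul]
    have : (volume.restrict (Set.Ioc 0 (2 * Real.pi)))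
        (Prod.mk x ⁻¹' {p : ℝ × ℝ | Real.sin (p.1 - p.2) = 0}) = 0 :=
      le_antisymm ((Measure.restrict_apply_le _ _).trans (hc.measure_zero _).le) bot_le
    rw [this, mul_zero]
  rw [h0]; rfl

lemma RO_D {lam : ℝ} (hl : 0 < lam) {w : ℂ} (w0 : 0 < w.im) {G1 G2 : ℂ → ℂ}
    (ee : G1 =ᶠ[𝓝 w] G2) : RO lam G1 w =
      Pool.Agent.Results.MP_a52643_an.MesoscopicMass.D (fun z => (z.im ^ 2)⁻¹) lam G2 w := by
  unfold RO Pool.Agent.Results.MP_a52643_an.MesoscopicMass.D
  have e2 : w.im / √lam = 1 / √(lam * (w.im ^ 2)⁻¹) := by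
    rw [Real.sqrt_mul hl.le, Real.sqrt_inv, Real.sqrt_sq w0.le]
    field_simp
  simp only [e2]
  unfold dx dy
  rw [ee.fderiv_eq]

lemma meso {t : ℕ → ℝ} (ht : Tendsto t atTop atTop) {f : ℕ → ℂ → ℝ} {U : Set ℂ}
    (hU : IsOpen U) (hUH : U ⊆ HH)
    (hf : ∀ n, Eig U (t n) (f n)) (hq : QUE U t f)
    (fin : IntegrableOn (fun z => 1 / z.im ^ 2) U)
    (f4 : ∀ n, IntegrableOn (fun z => f n z ^ 4 / z.im ^ 2) U)
    {φ : ℂ → ℝ} {B : ℝ} (hφ : TF U φ) (h0 : ∀ z, 0 ≤ φ z) (hB : ∀ z, φ z ≤ B)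
    {ε : ℝ} (hε : 0 < ε) :
    ∃ R₀ r₀ : ℝ, 0 < R₀ ∧ 0 < r₀ ∧ ∀ᶠ n in atTop, ∀ r : ℝ, R₀ / t n ≤ r → r ≤ r₀ →
      3 / 2 * II U (fun z => φ z * (mean r (fun w => f n w ^ 2) z - 1) ^ 2) ≤
        (B + ε) * excess U (f n) + ε := by
  obtain ⟨L, hL, h1, h2⟩ := exists_compact_between hφ.2.1.isCompact hU hφ.2.2
  have hll : Tendsto (fun n => ev (t n)) atTop atTop :=
    tendsto_atTop_add_const_left _ _ ((tendsto_pow_atTop two_ne_zero).comp ht)
  have hLH : L ⊆ HH := h2.trans hUH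
  have B0 : 0 ≤ B := (h0 0).trans (hB 0)
  obtain ⟨Y, hY⟩ := hL.exists_bound_of_continuousOn
    ((him.continuous.pow 2).continuousOn (s := L))
  have Y0 : 0 ≤ |Y| := abs_nonneg Y
  set A := II U (fun _ => 1) with hA
  have A0 : 0 ≤ A := setIntegral_nonneg hU.measurableSet fun z hz => by positivity
  obtain ⟨δ, δ0, δ1⟩ : ∃ δ : ℝ, 0 < δ ∧ δ * (3 + |Y| + 3 * |Y| * A) ≤ ε / 2 := by
    refine ⟨ε / 2 / (3 + |Y| + 3 * |Y| * A), by positivity, ?_⟩
    rw [div_mul_cancel₀ _ (by positivity)]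
  obtain ⟨R₀, r₀, hR, hr, key⟩ := Pool.Agent.Results.MP_a52643_an.MesoscopicMass.result U hU
    (fun z => (z.im ^ 2)⁻¹) (hinv hUH) (fun z hz => by
      have : 0 < z.im := hUH hz
      positivity) (fun n => ev (t n)) (fun n => ev_pos _) hll f
    (fun n => (hf n).1)
    (fun n z hz => by
      have h3 := (hf n).2 z hz
      have h4 : 0 < z.im := hUH hz
      show dx (dx (f n)) z + dy (dy (f n)) z + ev (t n) * ((z.im ^ 2)⁻¹ * f n z) = 0
      have h5 : dx (dx (f n)) z + dy (dy (f n)) z = -(ev (t n) * f n z) / z.im ^ 2 := by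
        rw [eq_div_iff (by positivity)]
        linarith
      rw [h5]
      field_simp
      ring) (fun _ => 1) contDiffOn_const Pool.Agent.TH294.RG.unif
    (fun g hg k => by
      have hk : ∀ z : ℂ, ∫ α, Pool.Agent.Results.MP_a52643_an.MesoscopicMass.sym α ^ k
          ∂(Pool.Agent.TH294.RG.unif z) = if k = 0 then 1 else 0 := by
        intro z
        have := Pool.Agent.TH294.RG.cm_unif k
        simp only [Pool.Agent.TH294.RG.unif, ProbabilityTheory.Kernel.const_apply]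
        exact this
      simp only [hk]
      have e1 : (∫ z, ((g z * (z.im ^ 2)⁻¹ : ℝ) : ℂ) * (((1 : ℝ) : ℂ) * if k = 0 then 1 else 0)) =
          if k = 0 then ((∫ z, g z / z.im ^ 2 : ℝ) : ℂ) else 0 := by
        split_ifs with hk0
        · simp only [mul_one, ofReal_one, ← div_eq_mul_inv]
          exact integral_complex_ofReal
        · simp
      rw [e1]
      refine (hq g hg k).congr fun n => ?_
      refine integral_congr_ae (ae_of_all _ fun z => ?_)
      by_cases hz : z ∈ U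
      · have z0 : 0 < z.im := hUH hz
        simp only [div_eq_mul_inv]
        congr 2
        have hD : ∀ k : ℕ, ∀ w ∈ U, (RO (ev (t n)))^[k] (fun w => (f n w : ℂ)) w =
            (Pool.Agent.Results.MP_a52643_an.MesoscopicMass.D (fun z => (z.im ^ 2)⁻¹)
              (ev (t n)))^[k] (fun w => (f n w : ℂ)) w := by
          intro k
          induction k with
          | zero => intro w _; rfl
          | succ k ih =>
            intro w hw
            have w0 : 0 < w.im := hUH hw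
            rw [Function.iterate_succ_apply', Function.iterate_succ_apply']
            have ee : (RO (ev (t n)))^[k] (fun w => (f n w : ℂ)) =ᶠ[𝓝 w]
                (Pool.Agent.Results.MP_a52643_an.MesoscopicMass.D (fun z => (z.im ^ 2)⁻¹)
                  (ev (t n)))^[k] (fun w => (f n w : ℂ)) := by
              filter_upwards [hU.mem_nhds hw] with x hx using ih x hx
            exact RO_D (ev_pos _) w0 ee
        exact hD k z hz
      · simp only [Pool.Agent.TH294.RS.TF.zero hg hz, zero_div, zero_mul, ofReal_zero])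
    (ae_of_all _ fun z => parU z) L hL h2 φ ⟨hφ.1, hφ.2.1, h1⟩ h0 δ δ0
  refine ⟨R₀, r₀, hR, hr, ?_⟩
  have wt := weight ht hU hUH hf hq fin f4 (ψ := φ) (B := B) hφ.1.continuous.continuousOn
    (fun z _ => by rw [abs_of_nonneg (h0 z)]; exact hB z) δ0
  have lo := weight ht hU hUH hf hq fin f4 (ψ := fun _ => 0) (B := 1) continuousOn_const
    (fun z _ => by rw [abs_zero]; exact zero_le_one) (ε := min δ (1 / 2)) (by positivity)
  filter_upwards [key, wt, lo, ht.eventually_gt_atTop 0] with n hk hw hl tn r r1 r2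
  have hr' : R₀ / √(ev (t n)) ≤ r := by
    refine le_trans ?_ r1
    refine div_le_div_of_nonneg_left hR.le tn ?_
    refine Real.le_sqrt_of_sq_le ?_
    unfold ev; linarith
  have h3 := hk r hr' r2
  have eA : ∫ z, φ z * (z.im ^ 2)⁻¹ * (1 : ℝ) ^ 2 = II U φ := by
    rw [← mass_eq hφ]; congr 1; funext z; ring
  have eB : ∫ z, φ z * (z.im ^ 2)⁻¹ * f n z ^ 4 = II U (fun z => φ z * f n z ^ 4) := by
    rw [← mass4_eq hφ]; congr 1
  have eC : ∫ z, φ z * (z.im ^ 2)⁻¹ *
      (Pool.Agent.Results.MP_a52643_an.MesoscopicMass.mean r (fun w => f n w ^ 2) z - 1) ^ 2 =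
      II U (fun z => φ z * (mean r (fun w => f n w ^ 2) z - 1) ^ 2) := by
    unfold II
    rw [← setIntegral_eq_integral_of_forall_compl_eq_zero (s := U) fun z hz => ?_]
    · congr 1; funext z
      show φ z * (z.im ^ 2)⁻¹ * (mean r (fun w => f n w ^ 2) z - 1) ^ 2 = _
      ring
    · rw [Pool.Agent.TH294.RS.TF.zero hφ hz, zero_mul, zero_mul]
  rw [eA, eB, eC] at h3
  have hLi : ∫ z in L, f n z ^ 4 ≤ |Y| * II U (fun z => f n z ^ 4) := by
    have cf : ContinuousOn (fun z => f n z ^ 4) L := ((hf n).1.continuousOn.mono h2).pow 4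
    have i1 : IntegrableOn (fun z => f n z ^ 4) L := cf.integrableOn_compact hL
    have i2 : IntegrableOn (fun z => |Y| * (f n z ^ 4 / z.im ^ 2)) U := (f4 n).const_mul _
    have g1 : ∫ z in L, f n z ^ 4 ≤ ∫ z in L, |Y| * (f n z ^ 4 / z.im ^ 2) := by
      refine setIntegral_mono_on i1 (i2.mono_set h2) hL.measurableSet fun z hz => ?_
      have h3 : 0 < z.im := hLH hz
      have h4 : z.im ^ 2 ≤ |Y| := by
        have h7 : ‖z.im ^ 2‖ ≤ Y := hY z hz
        rw [Real.norm_eq_abs, abs_of_nonneg (pow_nonneg h3.le 2)] at h7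
        exact h7.trans (le_abs_self Y)
      rw [mul_div_assoc', le_div_iff₀ (pow_pos h3 2), mul_comm]
      exact mul_le_mul_of_nonneg_right h4 (Even.pow_nonneg (by decide) _)
    refine g1.trans ?_
    unfold II
    rw [← integral_const_mul]
    refine setIntegral_mono_set i2 (ae_of_all _ fun z => ?_) (ae_of_all _ h2)
    positivity
  set E := excess U (f n) with hE
  have E4 : II U (fun z => f n z ^ 4) = E + 3 * A := by
    rw [hE]; unfold excess; rw [← hA]; ring
  rw [E4] at hLi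
  have hw' := (abs_le.1 hw).2
  have hl' : -min δ (1 / 2) ≤ E := by
    have := (abs_nonneg _).trans hl
    linarith
  have hl1 : -δ ≤ E := (neg_le_neg (min_le_left _ _)).trans hl'
  have hl2 : -(1 / 2) ≤ E := (neg_le_neg (min_le_right _ _)).trans hl'
  have k1 : δ * (∫ z in L, f n z ^ 4) ≤ δ * (|Y| * (E + 3 * A)) :=
    mul_le_mul_of_nonneg_left hLi δ0.le
  have k2 : 3 / 2 * II U (fun z => φ z * (mean r (fun w => f n w ^ 2) z - 1) ^ 2) ≤
      B * E + δ + δ + δ * (|Y| * (E + 3 * A)) := by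
    rw [hE] at *
    linarith
  refine k2.trans ?_
  -- `δ * |Y| * E ≤ ε E + ε/2 ...`
  have k3 : δ * |Y| ≤ ε / 2 := by
    have : δ * |Y| ≤ δ * (3 + |Y| + 3 * |Y| * A) := by
      refine mul_le_mul_of_nonneg_left ?_ δ0.le
      have : 0 ≤ 3 * |Y| * A := by positivity
      linarith
    linarith
  have k4 : 0 ≤ (ε - δ * |Y|) * (E + 1 / 2) := mul_nonneg (by linarith) (by linarith)
  have k5 : 0 ≤ δ * |Y| := mul_nonneg δ0.le Y0
  linarith

/-- **Result.** Let `U` be an open subset of the upper half plane of finite area (`FD`, the interior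
of the standard fundamental domain of the modular group, is such a set). Let `f n` be real
eigenfunctions of the hyperbolic Laplacian on `U`, quantum uniquely ergodic (microlocally) on `U`,
`t n → ∞`, with `f n ^ 4` integrable on `U`, and let `excess = ∫_U f⁴ dμ - 3 μ(U)`. For all real `A, B` and every `ε > 0`:

(1) for every continuous `ψ` on `U` with `A ≤ ψ ≤ B`, for all large `n`,
`A excess - ε ≤ ∫_U ψ f⁴ dμ - 3 ∫_U ψ dμ ≤ B excess + ε`;

(2) for every test function `φ` on `U` with `|φ| ≤ B` and all integers `a, b, c, d`, for all large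
`n`, `|∫ φ W_a W_b W_c W_d dμ - G(a,b,c,d) ∫ φ dμ| ≤ B excess + ε`;

(3) for every test function `φ` on `U` with `0 ≤ φ ≤ B` there are `R₀, r₀ > 0` such that for all
large `n` and all `r` between `R₀ / t n` and `r₀`,
`(3/2) ∫ φ (mean r (f²) - 1)² dμ ≤ (B + ε) excess + ε`.

In particular, (4) if `excess → 0`, then `∫_U ψ f⁴ dμ → 3 ∫_U ψ dμ` for every bounded continuous
`ψ` on `U`. -/
theorem result : (IsOpen FD ∧ FD ⊆ HH ∧ IntegrableOn (fun z : ℂ => 1 / z.im ^ 2) FD) ∧
    ∀ (t : ℕ → ℝ) (f : ℕ → ℂ → ℝ) (U : Set ℂ), Tendsto t atTop atTop → IsOpen U → U ⊆ HH →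
    (∀ n, Eig U (t n) (f n)) → QUE U t f →
    IntegrableOn (fun z : ℂ => 1 / z.im ^ 2) U →
    (∀ n, IntegrableOn (fun z => f n z ^ 4 / z.im ^ 2) U) →
    (∀ A B ε : ℝ, 0 < ε →
      (∀ ψ : ℂ → ℝ, ContinuousOn ψ U → (∀ z ∈ U, A ≤ ψ z) → (∀ z ∈ U, ψ z ≤ B) →
        ∀ᶠ n in atTop,
          A * excess U (f n) - ε ≤ II U (fun z => ψ z * f n z ^ 4) - 3 * II U ψ ∧
          II U (fun z => ψ z * f n z ^ 4) - 3 * II U ψ ≤ B * excess U (f n) + ε) ∧
      (∀ φ : ℂ → ℝ, TF U φ → (∀ z, |φ z| ≤ B) → ∀ a b c d : ℤ, ∀ᶠ n in atTop,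
        ‖M (ev (t n)) (f n) φ a b c d - G a b c d * (II U φ : ℝ)‖ ≤
          B * excess U (f n) + ε) ∧
      (∀ φ : ℂ → ℝ, TF U φ → (∀ z, 0 ≤ φ z) → (∀ z, φ z ≤ B) →
        ∃ R₀ r₀ : ℝ, 0 < R₀ ∧ 0 < r₀ ∧ ∀ᶠ n in atTop, ∀ r : ℝ, R₀ / t n ≤ r → r ≤ r₀ →
          3 / 2 * II U (fun z => φ z * (mean r (fun w => f n w ^ 2) z - 1) ^ 2) ≤
            (B + ε) * excess U (f n) + ε)) ∧
    (Tendsto (fun n => excess U (f n)) atTop (𝓝 0) → ∀ (B : ℝ) (ψ : ℂ → ℝ), ContinuousOn ψ U →
      (∀ z ∈ U, |ψ z| ≤ B) →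
        Tendsto (fun n => II U (fun z => ψ z * f n z ^ 4)) atTop (𝓝 (3 * II U ψ))) := by
  refine ⟨⟨Pool.Agent.K9h37.GF.FD_open, fun z hz => hz.1, Pool.Agent.K9h37.GF.FD_fin⟩,
    fun t f U ht hU hUH hf hq fin f4 => ⟨fun A B ε hε => ⟨fun ψ hψ hA hB => ?_,
      fun φ hφ hB a b c d => ?_, fun φ hφ h0 hB => ?_⟩, fun hE B ψ hψ hB => ?_⟩⟩
  · exact weight2 ht hU hUH hf hq fin f4 hψ hA hB hε
  · exact jets ht hU hUH hf hq fin f4 hφ hB a b c d hε
  · exact meso ht hU hUH hf hq fin f4 hφ h0 hB hε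
  · rw [Metric.tendsto_atTop']
    intro ε hε
    have h1 := weight ht hU hUH hf hq fin f4 hψ hB (ε := ε / 3) (by positivity)
    have h2 : Tendsto (fun n => B * excess U (f n)) atTop (𝓝 0) := by
      simpa using hE.const_mul B
    have h3 : ∀ᶠ n in atTop, B * excess U (f n) < ε / 3 :=
      h2.eventually (gt_mem_nhds (by positivity))
    obtain ⟨N, hN⟩ := eventually_atTop.1 (h1.and h3)
    refine ⟨N, fun n hn => ?_⟩
    obtain ⟨k1, k2⟩ := hN n hn.le
    rw [Real.dist_eq]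
    linarith

end

end Pool.Agent.Results.MP_a54f13_nt.GlobalFourthMoment
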