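import Pool.Agent.Results.MP_a54f13_nt.GlobalPowerSpectrum
import Pool.Agent.Results.MP_a54f13_nt.GlobalFourthMoment
import Pool.Agent.K9h37.GF.Dens

/-!
# The fourth moment of almost all Hecke-Maass forms (MP_a54f13_nt)

The notation is that of `GlobalPowerSpectrum`: `U` is an open subset of finite area of the upper
half plane `HH`, for instance the interior `FD` of the standard fundamental domain of the modular
group, `dμ = dx dy / y²`, `II U g = ∫_U g dμ`, `TF U` is the set of real test functions on `U`,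
`L` the normalised hyperbolic Laplacian and `opF F lam g = F(L) g`. The sequence `f n` can be the
sequence of all Hecke-Maass cusp forms, ordered by eigenvalue.

The theorem derives the case `n = 4` of the problem for almost all forms (all forms outside a set
of density zero, the same for all test functions) from a bound on average over the family, either
of the global fourth moment, or of the energy of `f²` at low (or at the highest) frequencies alone.
-/

set_option autoImplicit false
open MeasureTheory Filter Topology Complex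
open scoped ContDiff ENNReal

namespace Pool.Agent.Results.MP_a54f13_nt.AlmostAllForms

open Pool.Agent.W745.RW (TF)
open Pool.Agent.Results.MP_a54f13_nt.GlobalPowerSpectrum (HH FD ev Eig RO QUE II L opF)

noncomputable section

open Classical in
/-- the number of elements of `S` below `N` -/
def count (S : Set ℕ) (N : ℕ) : ℕ := ((Finset.range N).filter (fun n => n ∈ S)).card

/-- `S` has density one -/
def DensityOne (S : Set ℕ) : Prop := Tendsto (fun N : ℕ => (count S N : ℝ) / N) atTop (𝓝 1)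

/-- `x n` tends to `a` as `n → ∞` in `S` -/
def TendsAlong (S : Set ℕ) (x : ℕ → ℝ) (a : ℝ) : Prop :=
  ∀ ε > 0, ∃ N, ∀ n ∈ S, N ≤ n → |x n - a| < ε

/-- exhaustion of `U` by bumps -/
lemma bumps {U : Set ℂ} (hU : IsOpen U) (hUH : U ⊆ HH) :
    ∃ χ : ℕ → ℂ → ℝ, (∀ j, TF U (χ j)) ∧ (∀ j z, 0 ≤ χ j z) ∧ (∀ j z, χ j z ≤ 1) ∧
      ∀ K : Set ℂ, IsCompact K → K ⊆ U → ∃ j, ∀ z ∈ K, χ j z = 1 := by
  have ne : (Uᶜ).Nonempty := ⟨0, fun h => by
    have := hUH h
    simp [HH] at this⟩
  obtain ⟨K, hK⟩ : ∃ K : ℕ → Set ℂ, ∀ j, K j = Metric.closedBall 0 j ∩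
    {z | 1 / ((j : ℝ) + 1) ≤ Metric.infDist z Uᶜ} := ⟨_, fun _ => rfl⟩
  have Kc : ∀ j, IsCompact (K j) := fun j => by
    rw [hK]
    exact (isCompact_closedBall _ _).inter_right
      (isClosed_le continuous_const (Metric.continuous_infDist_pt _))
  have KU : ∀ j, K j ⊆ U := fun j z hz => by
    rw [hK] at hz
    by_contra h
    have h1 : Metric.infDist z Uᶜ = 0 := Metric.infDist_zero_of_mem h
    have h2 : 1 / ((j : ℝ) + 1) ≤ Metric.infDist z Uᶜ := hz.2
    have h3 : 0 < 1 / ((j : ℝ) + 1) := by positivity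
    linarith
  have Kx : ∀ K' : Set ℂ, IsCompact K' → K' ⊆ U → ∃ j, K' ⊆ K j := by
    intro K' hK' hKU
    rcases K'.eq_empty_or_nonempty with rfl | hne
    · exact ⟨0, Set.empty_subset _⟩
    obtain ⟨R, hR⟩ := hK'.isBounded.subset_closedBall (0 : ℂ)
    obtain ⟨x, hx, hmin⟩ := hK'.exists_isMinOn hne
      (Metric.continuous_infDist_pt (Uᶜ)).continuousOn
    have xpos : 0 < Metric.infDist x Uᶜ := by
      refine (hU.isClosed_compl.notMem_iff_infDist_pos ne).1 ?_
      exact fun h => h (hKU hx)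
    obtain ⟨j1, hj1⟩ := exists_nat_one_div_lt xpos
    obtain ⟨j2, hj2⟩ := exists_nat_ge R
    refine ⟨max j1 j2, fun z hz => ?_⟩
    rw [hK]
    refine ⟨?_, ?_⟩
    · have h1 := hR hz
      rw [Metric.mem_closedBall] at h1 ⊢
      refine h1.trans (hj2.trans ?_)
      exact_mod_cast le_max_right j1 j2
    · have h1 : Metric.infDist x Uᶜ ≤ Metric.infDist z Uᶜ := hmin hz
      have h2 : 1 / (((max j1 j2 : ℕ) : ℝ) + 1) ≤ 1 / ((j1 : ℝ) + 1) := by
        gcongr
        exact_mod_cast le_max_left j1 j2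
      show 1 / (((max j1 j2 : ℕ) : ℝ) + 1) ≤ Metric.infDist z Uᶜ
      linarith
  have hb := fun j => Pool.Agent.K9h37.GF.bumpK hU (Kc j) (KU j)
  choose χ h1 h2 h3 h4 using hb
  refine ⟨χ, h1, h2, h3, fun K' hK' hKU => ?_⟩
  obtain ⟨j, hj⟩ := Kx K' hK' hKU
  exact ⟨j, fun z hz => h4 j z (hj hz)⟩

/-- **Result.** Let `U` be an open subset of the upper half plane of finite area (for instance
`FD`). Let `f n` be real eigenfunctions of the hyperbolic Laplacian on `U`, quantum uniquely
ergodic (microlocally) on `U`, `t n → ∞`.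

(1) Suppose that for every `δ > 0` there is a real polynomial `F` with `2 F(0)² + F(4)² ≥ 1` such
that the average over `n < N` of `∫_U (F(L) f_n²)² dμ` is at most `F(0)² μ(U) + δ` for all large
`N`. Then there is a set `S` of density one such that `∫ φ f_n⁴ dμ → 3 ∫ φ dμ` along `S` for every
test function `φ` on `U`.

(2) Suppose that for every `δ > 0` the average over `n < N` of `∫_U f_n⁴ dμ` is at most
`3 μ(U) + δ` for all large `N`. Then there is a set `S` of density one such that
`∫_U ψ f_n⁴ dμ → 3 ∫_U ψ dμ` along `S` for every bounded continuous function `ψ` on `U`. -/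
theorem result : (IsOpen FD ∧ FD ⊆ HH ∧ IntegrableOn (fun z : ℂ => 1 / z.im ^ 2) FD) ∧
    ∀ (t : ℕ → ℝ) (f : ℕ → ℂ → ℝ) (U : Set ℂ), Tendsto t atTop atTop → IsOpen U → U ⊆ HH →
    (∀ n, Eig U (t n) (f n)) → QUE U t f → IntegrableOn (fun z : ℂ => 1 / z.im ^ 2) U →
    ((∀ δ > 0, ∃ F : Polynomial ℝ, 1 ≤ 2 * F.eval 0 ^ 2 + F.eval 4 ^ 2 ∧
        (∀ n, IntegrableOn (fun z => opF F (ev (t n)) (fun w => f n w ^ 2) z ^ 2 / z.im ^ 2) U) ∧
        ∀ᶠ N : ℕ in atTop,
          (∑ n ∈ Finset.range N, II U (fun z => opF F (ev (t n)) (fun w => f n w ^ 2) z ^ 2)) / N ≤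
            F.eval 0 ^ 2 * II U (fun _ => 1) + δ) →
      ∃ S : Set ℕ, DensityOne S ∧ ∀ φ : ℂ → ℝ, TF U φ →
        TendsAlong S (fun n => II U (fun z => φ z * f n z ^ 4)) (3 * II U φ)) ∧
    ((∀ n, IntegrableOn (fun z => f n z ^ 4 / z.im ^ 2) U) →
      (∀ δ > 0, ∀ᶠ N : ℕ in atTop,
        (∑ n ∈ Finset.range N, II U (fun z => f n z ^ 4)) / N ≤ 3 * II U (fun _ => 1) + δ) →
      ∃ S : Set ℕ, DensityOne S ∧ ∀ (B : ℝ) (ψ : ℂ → ℝ), ContinuousOn ψ U →
        (∀ z ∈ U, |ψ z| ≤ B) →
          TendsAlong S (fun n => II U (fun z => ψ z * f n z ^ 4)) (3 * II U ψ)) := by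
  refine ⟨⟨Pool.Agent.K9h37.GF.FD_open, fun z hz => hz.1, Pool.Agent.K9h37.GF.FD_fin⟩, ?_⟩
  intro t f U ht hU hUH hf hq fin
  have A0 : 0 ≤ II U (fun _ => 1) := setIntegral_nonneg hU.measurableSet fun z hz => by positivity
  refine ⟨fun h => ?_, fun f4 h => ?_⟩
  · have part1 := GlobalPowerSpectrum.part1 ht hU hUH hf hq fin
    have cf : ∀ n, ContinuousOn (fun z => f n z ^ 4) U := fun n => (hf n).1.continuousOn.pow 4
    obtain ⟨χ, hχ, χ0, χ1, χK⟩ := bumps hU hUH
    obtain ⟨X, hX⟩ : ∃ X : ℕ → ℕ → ℝ, ∀ j n, X j n =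
      II U (fun z => χ j z * f n z ^ 4) - 3 * II U (χ j) := ⟨_, fun _ _ => rfl⟩
    have T0 : TF U (fun _ => 0) := by
      refine ⟨contDiff_const, HasCompactSupport.zero, ?_⟩
      have : tsupport (fun _ : ℂ => (0 : ℝ)) = ∅ := by
        rw [tsupport_eq_empty_iff]; rfl
      rw [this]; exact Set.empty_subset _
    have hd : ∀ j, ∀ η > 0, Pool.Agent.K9h37.GF.D0 {n | η < X j n} := by
      intro j η hη
      refine Pool.Agent.K9h37.GF.dens (fun δ hδ => ?_) hη
      obtain ⟨F, F0, hint, hF⟩ := h δ hδ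
      have hg := GlobalPowerSpectrum.gauss_ge F
      refine ⟨fun n => II U (fun z => opF F (ev (t n)) (fun w => f n w ^ 2) z ^ 2) -
        GlobalPowerSpectrum.gauss F * II U (fun _ => 1), ?_, ?_, ?_⟩
      · have k := part1 F hint (fun _ => 0) T0 (fun _ => zero_le_one) δ hδ
        refine k.mono fun n hn => ?_
        have e1 : II U (fun z => (fun _ => (0 : ℝ)) z * f n z ^ 4) = 0 := by
          unfold GlobalPowerSpectrum.II; simp
        have e2 : II U (fun _ => 0) = 0 := by
          unfold GlobalPowerSpectrum.II; simp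
        rw [e1, e2] at hn
        show -δ ≤ _
        linarith
      · have k := part1 F hint (fun _ => 0) T0 (fun _ => zero_le_one) (δ / 3) (by positivity)
        have k' := part1 F hint (χ j) (hχ j) (χ1 j) (δ / 3) (by positivity)
        filter_upwards [k, k'] with n hn hn'
        have e1 : II U (fun z => (fun _ => (0 : ℝ)) z * f n z ^ 4) = 0 := by
          unfold GlobalPowerSpectrum.II; simp
        have e2 : II U (fun _ => 0) = 0 := by
          unfold GlobalPowerSpectrum.II; simp
        rw [e1, e2] at hn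
        rw [← hX] at hn'
        obtain ⟨P, hP⟩ : ∃ P : ℝ, P = II U (fun z => opF F (ev (t n)) (fun w => f n w ^ 2) z ^ 2) -
          GlobalPowerSpectrum.gauss F * II U (fun _ => 1) := ⟨_, rfl⟩
        show X j n ≤ 3 * (II U (fun z => opF F (ev (t n)) (fun w => f n w ^ 2) z ^ 2) -
          GlobalPowerSpectrum.gauss F * II U (fun _ => 1)) + δ
        rw [← hP]
        obtain ⟨c, hc⟩ : ∃ c : ℝ, c = (2 * F.eval 0 ^ 2 + F.eval 4 ^ 2) / 3 := ⟨_, rfl⟩
        rw [← hc] at hn'
        have c1 : 1 / 3 ≤ c := by rw [hc]; linarith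
        have k1 : c * X j n ≤ P + δ / 3 := by rw [hP]; linarith
        have k2 : -(δ / 3) ≤ P := by rw [hP]; linarith
        by_contra hcon
        rw [not_le] at hcon
        nlinarith
      · filter_upwards [hF, eventually_gt_atTop 0] with N hN hN0
        have N0 : (0 : ℝ) < N := by exact_mod_cast hN0
        rw [div_le_iff₀ N0] at hN ⊢
        rw [Finset.sum_sub_distrib, Finset.sum_const, Finset.card_range, nsmul_eq_mul]
        have : F.eval 0 ^ 2 * II U (fun _ => 1) ≤
            GlobalPowerSpectrum.gauss F * II U (fun _ => 1) := mul_le_mul_of_nonneg_right hg A0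
        nlinarith
    obtain ⟨S, hS, hS2⟩ := Pool.Agent.K9h37.GF.diag
      (A := fun k => {n | 1 / (((Nat.unpair k).2 : ℝ) + 1) < X (Nat.unpair k).1 n})
      (fun k => hd _ _ (by positivity))
    refine ⟨S, hS, fun φ hφ ε hε => ?_⟩
    obtain ⟨j, hj⟩ := χK _ hφ.2.1.isCompact hφ.2.2
    obtain ⟨D, hD⟩ := hφ.2.1.exists_bound_of_continuous hφ.1.continuous
    obtain ⟨B, hB⟩ : ∃ B : ℝ, B = |D| + 1 := ⟨_, rfl⟩
    have B0 : 0 < B := by rw [hB]; positivity
    have hB' : ∀ z, |φ z| ≤ B := fun z => by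
      have h1 : ‖φ z‖ ≤ D := hD z
      rw [Real.norm_eq_abs] at h1
      have := le_abs_self D
      linarith
    have ab : ∀ z, |φ z| ≤ B * χ j z := by
      intro z
      by_cases hz : z ∈ tsupport φ
      · rw [hj z hz, mul_one]; exact hB' z
      · rw [image_eq_zero_of_notMem_tsupport hz, abs_zero]
        exact mul_nonneg B0.le (χ0 j z)
    have sc : ∀ s : ℝ, TF U (fun z => B * χ j z - s * φ z) := fun s => by
      have hs : Function.support (fun z => B * χ j z - s * φ z) ⊆
          tsupport (χ j) ∪ tsupport φ := by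
        intro z hz
        by_contra h
        rw [Set.mem_union, not_or] at h
        refine hz ?_
        show B * χ j z - s * φ z = 0
        rw [image_eq_zero_of_notMem_tsupport h.1, image_eq_zero_of_notMem_tsupport h.2]
        ring
      have hc : IsCompact (tsupport (χ j) ∪ tsupport φ) :=
        (hχ j).2.1.isCompact.union hφ.2.1.isCompact
      exact ⟨(contDiff_const.mul (hχ j).1).sub (contDiff_const.mul hφ.1),
        HasCompactSupport.of_support_subset_isCompact hc hs,
        (closure_minimal hs hc.isClosed).trans (Set.union_subset (hχ j).2.2 hφ.2.2)⟩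
    have lin : ∀ (s : ℝ) (g : ℂ → ℝ), ContinuousOn g U →
        II U (fun z => (B * χ j z - s * φ z) * g z) =
          B * II U (fun z => χ j z * g z) - s * II U (fun z => φ z * g z) := by
      intro s g hg
      unfold GlobalPowerSpectrum.II
      rw [← integral_const_mul, ← integral_const_mul, ← integral_sub
        ((GlobalPowerSpectrum.tint hU hUH (hχ j) hg).integrableOn.const_mul B)
        ((GlobalPowerSpectrum.tint hU hUH hφ hg).integrableOn.const_mul s)]
      congr 1; funext z; ring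
    have lin1 : ∀ s : ℝ, II U (fun z => B * χ j z - s * φ z) =
        B * II U (χ j) - s * II U φ := by
      intro s
      have := lin s (fun _ => 1) continuousOn_const
      simpa only [mul_one] using this
    have l1 := GlobalPowerSpectrum.lower ht hU hUH hf hq (sc 1) (fun z => by
      have := (abs_le.1 (ab z)).2
      show 0 ≤ B * χ j z - 1 * φ z
      linarith) (ε := ε / 4) (by positivity)
    have l2 := GlobalPowerSpectrum.lower ht hU hUH hf hq (sc (-1)) (fun z => by
      have := (abs_le.1 (ab z)).1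
      show 0 ≤ B * χ j z - -1 * φ z
      linarith) (ε := ε / 4) (by positivity)
    obtain ⟨i, hi⟩ := exists_nat_one_div_lt (show 0 < ε / (4 * B) by positivity)
    have l3 := hS2 (Nat.pair j i)
    simp only [Nat.unpair_pair] at l3
    obtain ⟨N, hN⟩ := eventually_atTop.1 ((l1.and l2).and l3)
    refine ⟨N, fun n hnS hn => ?_⟩
    obtain ⟨⟨m1, m2⟩, m3⟩ := hN n hn
    have m4 : X j n ≤ 1 / ((i : ℝ) + 1) := not_lt.1 (m3 hnS)
    rw [lin 1 _ (cf n), lin1] at m1
    rw [lin (-1) _ (cf n), lin1] at m2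
    have m5 : B * X j n ≤ ε / 4 := by
      have h1 : X j n ≤ ε / (4 * B) := m4.trans hi.le
      have h2 : B * X j n ≤ B * (ε / (4 * B)) := mul_le_mul_of_nonneg_left h1 B0.le
      have h3 : B * (ε / (4 * B)) = ε / 4 := by field_simp
      linarith
    rw [hX] at m5
    rw [abs_lt]
    constructor <;> nlinarith
  · obtain ⟨-, H⟩ := GlobalFourthMoment.result
    obtain ⟨H1, -⟩ := H t f U ht hU hUH hf hq fin f4
    obtain ⟨E, hE⟩ : ∃ E : ℕ → ℝ, ∀ n, E n = II U (fun z => f n z ^ 4) - 3 * II U (fun _ => 1) :=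
      ⟨_, fun _ => rfl⟩
    have hEx : ∀ n, GlobalFourthMoment.excess U (f n) = E n := fun n => (hE n).symm
    have pos : ∀ ε > 0, ∀ᶠ n in atTop, -ε ≤ E n := by
      intro ε hε
      have k := (H1 0 1 ε hε).1 (fun _ => 0) continuousOn_const (fun _ _ => le_rfl)
        (fun _ _ => zero_le_one)
      refine k.mono fun n hn => ?_
      have h2 := hn.2
      rw [hEx] at h2
      have e1 : GlobalFourthMoment.II U (fun z => (fun _ => (0 : ℝ)) z * f n z ^ 4) = 0 := by
        unfold GlobalFourthMoment.II; simp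
      have e2 : GlobalFourthMoment.II U (fun _ => 0) = 0 := by
        unfold GlobalFourthMoment.II; simp
      rw [e1, e2] at h2
      linarith
    have hd : ∀ η > 0, Pool.Agent.K9h37.GF.D0 {n | η < E n} := by
      intro η hη
      refine Pool.Agent.K9h37.GF.dens (fun δ hδ => ?_) hη
      refine ⟨E, pos δ hδ, ?_, ?_⟩
      · refine (pos (δ / 2) (by positivity)).mono fun n hn => ?_
        linarith
      · filter_upwards [h δ hδ, eventually_gt_atTop 0] with N hN hN0
        have N0 : (0 : ℝ) < N := by exact_mod_cast hN0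
        rw [div_le_iff₀ N0] at hN ⊢
        simp only [hE]
        rw [Finset.sum_sub_distrib, Finset.sum_const, Finset.card_range, nsmul_eq_mul]
        linarith
    obtain ⟨S, hS, hS2⟩ := Pool.Agent.K9h37.GF.diag
      (A := fun k => {n | 1 / ((k : ℝ) + 1) < E n}) (fun k => hd _ (by positivity))
    refine ⟨S, hS, fun B ψ hψ hB ε hε => ?_⟩
    obtain ⟨C, hC⟩ : ∃ C : ℝ, C = |B| + 1 := ⟨_, rfl⟩
    have C0 : 0 < C := by rw [hC]; positivity
    have hC' : ∀ z ∈ U, |ψ z| ≤ C := fun z hz => by
      have := hB z hz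
      have := le_abs_self B
      linarith
    have k := (H1 (-C) C (ε / 2) (by positivity)).1 ψ hψ (fun z hz => (abs_le.1 (hC' z hz)).1)
      (fun z hz => (abs_le.1 (hC' z hz)).2)
    obtain ⟨i, hi⟩ := exists_nat_one_div_lt (show 0 < ε / (2 * C) by positivity)
    obtain ⟨N, hN⟩ := eventually_atTop.1 (k.and (hS2 i))
    refine ⟨N, fun n hnS hn => ?_⟩
    obtain ⟨⟨m1, m2⟩, m3⟩ := hN n hn
    rw [hEx] at m1 m2
    have m4 : E n ≤ 1 / ((i : ℝ) + 1) := not_lt.1 (m3 hnS)
    have m5 : C * E n < ε / 2 := by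
      have h1 : E n < ε / (2 * C) := lt_of_le_of_lt m4 hi
      have h2 : C * E n < C * (ε / (2 * C)) := mul_lt_mul_of_pos_left h1 C0
      have h3 : C * (ε / (2 * C)) = ε / 2 := by field_simp
      linarith
    have m6 : II U (fun z => ψ z * f n z ^ 4) - 3 * II U ψ ≤ C * E n + ε / 2 := m2
    have m7 : -C * E n - ε / 2 ≤ II U (fun z => ψ z * f n z ^ 4) - 3 * II U ψ := m1
    rw [abs_lt]
    constructor <;> linarith

end

end Pool.Agent.Results.MP_a54f13_nt.AlmostAllForms
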