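import Pool.Agent.Y265.HY.PS2
import Pool.Agent.TH294.RS.Met
import Pool.Agent.K9h37.GF.Bump

/-!
# The global power spectrum of the square of a Hecke-Maass form (MP_a54f13_nt)

The plane is `ℂ`, with the upper half plane `HH` and `dμ = dx dy / y²`. `dx f z`, `dy f z` are the
partial derivatives `fderiv ℝ f z 1`, `fderiv ℝ f z I`; `TF U φ` says that `φ : ℂ → ℝ` is smooth
with compact support contained in `U`. `L lam g = - lam⁻¹ y² (∂x² + ∂y²) g` is the normalised
hyperbolic Laplacian, and `opF F lam g = F(L lam) g = ∑ F_i (L lam)^i g` for a real polynomial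
`F = ∑ F_i x^i`.

`U` is an open subset of `HH` of finite area, for instance the interior `FD` of the standard
fundamental domain of the modular group; the hypotheses on `f` concern `U` only. For a Hecke-Maass form and `U = FD` the integral
`∫_U (F(L) f²)² dμ` is, by Parseval, the sum of `F(λ_j / λ)² |⟨f², u_j⟩|²` over the spectrum. For
`F = (1 - x / 4)^N`, `N` large, only the constant function and the frequencies `λ_j / λ` close to
`0` contribute; for `F = (x / 4)^N` only the frequencies close to `4` (and the negligible ones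
beyond `4`).
-/

set_option autoImplicit false
open MeasureTheory Filter Topology Complex
open scoped ContDiff ENNReal

namespace Pool.Agent.Results.MP_a54f13_nt.GlobalPowerSpectrum

open Pool.Agent.W745.RW (TF dx dy lap)

noncomputable section

/-- the open upper half plane -/
def HH : Set ℂ := {z | 0 < z.im}

/-- the interior of the standard fundamental domain of the modular group -/
def FD : Set ℂ := {z | 0 < z.im ∧ |z.re| < 1 / 2 ∧ 1 < ‖z‖}

/-- the eigenvalue `1/4 + t²` -/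
def ev (t : ℝ) : ℝ := 1 / 4 + t ^ 2

/-- `f` is a smooth real solution of `-y² (∂x² + ∂y²) f = (1/4 + t²) f` on `U` -/
def Eig (U : Set ℂ) (t : ℝ) (f : ℂ → ℝ) : Prop :=
  ContDiffOn ℝ ∞ f U ∧ ∀ z ∈ U, -(z.im ^ 2 * (dx (dx f) z + dy (dy f) z)) = ev t * f z

/-- the operator `f ↦ lam^{-1/2} y (∂x f - i ∂y f)` -/
def RO (lam : ℝ) (f : ℂ → ℂ) (z : ℂ) : ℂ :=
  ((z.im / √lam : ℝ) : ℂ) * (dx f z - I * dy f z)

/-- quantum unique ergodicity in microlocal form on `U`: for test functions `φ` on `U`,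
`∫ φ f (RO^k f) dμ → ∫ φ dμ` for `k = 0`, and `→ 0` for `k ≥ 1` -/
def QUE (U : Set ℂ) (t : ℕ → ℝ) (f : ℕ → ℂ → ℝ) : Prop :=
  ∀ φ, TF U φ → ∀ k : ℕ, Tendsto (fun n => ∫ z, ((φ z / z.im ^ 2 : ℝ) : ℂ) *
    ((f n z : ℂ) * (RO (ev (t n)))^[k] (fun w => (f n w : ℂ)) z)) atTop
    (𝓝 (if k = 0 then ((∫ z, φ z / z.im ^ 2 : ℝ) : ℂ) else 0))

/-- the integral `∫_U g dμ` -/
def II (U : Set ℂ) (g : ℂ → ℝ) : ℝ := ∫ z in U, g z / z.im ^ 2

/-- the hyperbolic Laplacian `-y² (∂x² + ∂y²)` divided by `lam` -/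
def L (lam : ℝ) (g : ℂ → ℝ) (z : ℂ) : ℝ :=
  -(z.im ^ 2 * (dx (dx g) z + dy (dy g) z)) / lam

/-- the polynomial `F` in the operator `L lam`, applied to `g` -/
def opF (F : Polynomial ℝ) (lam : ℝ) (g : ℂ → ℝ) (z : ℂ) : ℝ :=
  F.sum fun i c => c * (L lam)^[i] g z

/-- the value of `∫ (F(L) f²)² dμ / area` for the Gaussian random wave:
`F(0)² + π⁻¹ ∫_0^{2π} F(2 - 2 cos θ)² dθ` -/
def gauss (F : Polynomial ℝ) : ℝ :=
  F.eval 0 ^ 2 + 1 / Real.pi * ∫ θ in (0 : ℝ)..(2 * Real.pi), F.eval (2 - 2 * Real.cos θ) ^ 2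

lemma him : ContDiff ℝ ∞ (fun z : ℂ => z.im) := imCLM.contDiff

lemma ev_pos (t : ℝ) : 0 < ev t := by unfold ev; positivity

lemma gauss_ge (F : Polynomial ℝ) : F.eval 0 ^ 2 ≤ gauss F := by
  unfold gauss
  have : 0 ≤ ∫ θ in (0 : ℝ)..(2 * Real.pi), F.eval (2 - 2 * Real.cos θ) ^ 2 :=
    intervalIntegral.integral_nonneg (by positivity) fun θ _ => sq_nonneg _
  have : 0 ≤ 1 / Real.pi * ∫ θ in (0 : ℝ)..(2 * Real.pi), F.eval (2 - 2 * Real.cos θ) ^ 2 := by
    positivity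
  linarith

lemma TFzero {U : Set ℂ} {φ : ℂ → ℝ} (hφ : TF U φ) {z : ℂ} (hz : z ∉ U) : φ z = 0 :=
  image_eq_zero_of_notMem_tsupport (fun h => hz (hφ.2.2 h))

lemma II_full {U : Set ℂ} {φ : ℂ → ℝ} (hφ : TF U φ) (g : ℂ → ℝ) :
    ∫ z, φ z * g z / z.im ^ 2 = II U (fun z => φ z * g z) := by
  unfold II
  refine (setIntegral_eq_integral_of_forall_compl_eq_zero fun z hz => ?_).symm
  rw [TFzero hφ hz, zero_mul, zero_div]

lemma II_full1 {U : Set ℂ} {φ : ℂ → ℝ} (hφ : TF U φ) : ∫ z, φ z / z.im ^ 2 = II U φ := by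
  have := II_full hφ (fun _ => 1)
  simpa only [mul_one] using this

/-- integrability against test functions -/
lemma tint {U : Set ℂ} (hU : IsOpen U) (hUH : U ⊆ HH) {φ : ℂ → ℝ} (hφ : TF U φ) {g : ℂ → ℝ}
    (hg : ContinuousOn g U) : Integrable (fun z => φ z * g z / z.im ^ 2) := by
  have c1 : ContinuousOn (fun z => g z / z.im ^ 2) U :=
    hg.div (continuous_im.pow 2).continuousOn fun z hz => by
      have : 0 < z.im := hUH hz
      positivity
  have c2 : Continuous (fun z => φ z * (g z / z.im ^ 2)) := by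
    rw [continuous_iff_continuousAt]
    intro z
    by_cases hz : z ∈ U
    · exact hφ.1.continuous.continuousAt.mul (c1.continuousAt (hU.mem_nhds hz))
    · have h0 : φ =ᶠ[𝓝 z] 0 := notMem_tsupport_iff_eventuallyEq.1 (fun h => hz (hφ.2.2 h))
      have h1 : (fun z => φ z * (g z / z.im ^ 2)) =ᶠ[𝓝 z] fun _ => 0 := by
        filter_upwards [h0] with w hw
        simp [hw]
      exact (continuousAt_const.congr h1.symm)
  have h3 : HasCompactSupport (fun z => φ z * (g z / z.im ^ 2)) := hφ.2.1.mul_right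
  refine (c2.integrable_of_hasCompactSupport h3).congr (ae_of_all _ fun z => ?_)
  simp only [mul_div_assoc]

lemma II_sub {U : Set ℂ} (hU : IsOpen U) (hUH : U ⊆ HH) {φ χ : ℂ → ℝ} (hφ : TF U φ)
    (hχ : TF U χ) {g : ℂ → ℝ} (hg : ContinuousOn g U) :
    II U (fun z => (χ z - φ z) * g z) = II U (fun z => χ z * g z) - II U (fun z => φ z * g z) := by
  unfold II
  rw [← integral_sub (tint hU hUH hχ hg).integrableOn (tint hU hUH hφ hg).integrableOn]
  congr 1; funext z; ring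

lemma L_smooth {U : Set ℂ} (hU : IsOpen U) (lam : ℝ) {g : ℂ → ℝ} (hg : ContDiffOn ℝ ∞ g U) :
    ContDiffOn ℝ ∞ (L lam g) U := by
  have h1 : ∀ {g : ℂ → ℝ}, ContDiffOn ℝ ∞ g U → ∀ v : ℂ,
      ContDiffOn ℝ ∞ (fun z => fderiv ℝ g z v) U := fun hg v =>
    (hg.fderiv_of_isOpen hU (by simp)).clm_apply contDiffOn_const
  have h2 : ContDiffOn ℝ ∞ (fun z : ℂ => z.im) U := imCLM.contDiff.contDiffOn
  exact ((h2.pow 2).mul ((h1 (h1 hg 1) 1).add (h1 (h1 hg I) I))).neg.div_const _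

lemma opF_cont {U : Set ℂ} (hU : IsOpen U) (F : Polynomial ℝ) (lam : ℝ) {g : ℂ → ℝ}
    (hg : ContDiffOn ℝ ∞ g U) : ContinuousOn (opF F lam g) U := by
  have h0 : ∀ k : ℕ, ContDiffOn ℝ ∞ ((L lam)^[k] g) U := by
    intro k
    induction k with
    | zero => exact hg
    | succ k ih =>
      rw [Function.iterate_succ_apply']
      exact L_smooth hU lam ih
  have : opF F lam g = fun z => ∑ i ∈ F.support, F.coeff i * (L lam)^[i] g z := by
    funext z; rfl
  rw [this]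
  exact continuousOn_finsetSum _ fun i _ => continuousOn_const.mul (h0 i).continuousOn

/-- the local power spectrum -/
lemma sharpU {t : ℕ → ℝ} (ht : Tendsto t atTop atTop) {f : ℕ → ℂ → ℝ} {U : Set ℂ}
    (hU : IsOpen U) (hUH : U ⊆ HH) (hf : ∀ n, Eig U (t n) (f n)) (hq : QUE U t f)
    (ψ : ℂ → ℝ) (hψ : TF U ψ) (F : Polynomial ℝ) :
    Tendsto (fun n =>
      (∫ z, ψ z * opF F (ev (t n)) (fun w => f n w ^ 2) z ^ 2 / z.im ^ 2)
        - (2 * F.eval 0 ^ 2 + F.eval 4 ^ 2) / 3 *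
          ((∫ z, ψ z * f n z ^ 4 / z.im ^ 2) - 3 * ∫ z, ψ z / z.im ^ 2)) atTop
      (𝓝 (gauss F * ∫ z, ψ z / z.im ^ 2)) := by
  have hU' : ∀ z ∈ U, 0 < z.im := fun z hz => hUH hz
  have hpos : ∀ n, 0 < ev (t n) := fun n => ev_pos _
  have hlam : Tendsto (fun n => ev (t n)) atTop atTop :=
    tendsto_atTop_add_const_left _ _ ((tendsto_pow_atTop two_ne_zero).comp ht)
  have heq' : ∀ n, ∀ z ∈ U, z.im ^ 2 * lap (f n) z + ev (t n) * f n z = 0 := by
    intro n z hz
    have h1 := (hf n).2 z hz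
    have h2 : lap (f n) z = dx (dx (f n)) z + dy (dy (f n)) z := rfl
    rw [h2]; linarith
  obtain ⟨S, E⟩ := Pool.Agent.Y265.HY.hyp_sys hU hU' hpos hlam (fun n => (hf n).1) heq' hq
  have sy : ContDiffOn ℝ ∞ (fun z : ℂ => (z.im ^ 2)⁻¹) U := by
    refine ContDiffOn.inv ((imCLM.contDiff.pow 2).contDiffOn) fun z hz => ?_
    exact pow_ne_zero 2 (hU' z hz).ne'
  have tφ : TF U (fun z => ψ z / z.im ^ 2) := Pool.Agent.TH294.RS.TF.mulc hU hψ sy
  have key := Pool.Agent.Y265.HY.PS.spec_c S hU' E tφ F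
  have k2 := (Complex.continuous_re.tendsto _).comp key
  have e0 : (((F.eval 0 ^ 2 + 1 / Real.pi *
      ∫ θ in (0 : ℝ)..(2 * Real.pi), F.eval (2 - 2 * Real.cos θ) ^ 2 : ℝ) : ℂ) *
      ((∫ z, ψ z / z.im ^ 2 : ℝ) : ℂ)).re = gauss F * ∫ z, ψ z / z.im ^ 2 := by
    rw [← Complex.ofReal_mul, Complex.ofReal_re]; rfl
  rw [e0] at k2
  refine k2.congr fun n => ?_
  have hT : ∀ g, ∀ z ∈ U, L (ev (t n)) g z =
      Pool.Agent.TH294.RG.sR (fun z => z.im) (1 / √(ev (t n))) g z := by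
    intro g z _
    have h2 : (1 / √(ev (t n))) ^ 2 = 1 / ev (t n) := by
      rw [div_pow, Real.sq_sqrt (hpos n).le, one_pow]
    simp only [L, Pool.Agent.TH294.RG.sR, h2, lap]
    ring
  have s2 : ContDiffOn ℝ ∞ (fun w => f n w ^ 2) U := (hf n).1.pow 2
  have sim : ContDiffOn ℝ ∞ (fun z : ℂ => z.im) U := imCLM.contDiff.contDiffOn
  have e1 : ∀ z ∈ U, Pool.Agent.TH294.RG.opP (fun z => z.im) (1 / √(ev (t n))) F
      (fun w => (f n w : ℂ) * (f n w : ℂ)) z =
      ((opF F (ev (t n)) (fun w => f n w ^ 2) z : ℝ) : ℂ) := by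
    intro z hz
    simp only [opF, Pool.Agent.TH294.RG.opP, Polynomial.sum_def]
    push_cast
    refine Finset.sum_congr rfl fun i _ => ?_
    rw [Pool.Agent.TH294.RG.sL1_re hU sim _ s2
      (fun w _ => by push_cast; ring) i z hz, Pool.Agent.TH294.RG.sR_cg hU hT _ i z hz]
  have w0 : ∀ z, Pool.Agent.TH294.RS.ww Complex.im (fun n => 1 / √(ev (t n)))
      (fun n z => (f n z : ℂ)) 0 n z = (f n z : ℂ) := fun z => rfl
  have v0 : Pool.Agent.TH294.RG.vv (Pool.Agent.TH294.RS.ww Complex.im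
      (fun n => 1 / √(ev (t n))) (fun n z => (f n z : ℂ))) 0 n =
      fun w => (f n w : ℂ) * (f n w : ℂ) := by
    funext z
    simp only [Pool.Agent.TH294.RG.vv, neg_zero, Int.natAbs_zero, pow_zero, one_mul, w0]
  have a1 : ∫ z, ((ψ z / z.im ^ 2 : ℝ) : ℂ) * (Pool.Agent.TH294.RG.opP Complex.im
      (1 / √(ev (t n))) F (Pool.Agent.TH294.RG.vv (Pool.Agent.TH294.RS.ww Complex.im
      (fun n => 1 / √(ev (t n))) (fun n z => (f n z : ℂ))) 0 n) z *
      Pool.Agent.TH294.RG.opP Complex.im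
      (1 / √(ev (t n))) F (Pool.Agent.TH294.RG.vv (Pool.Agent.TH294.RS.ww Complex.im
      (fun n => 1 / √(ev (t n))) (fun n z => (f n z : ℂ))) 0 n) z) =
      ((∫ z, ψ z * opF F (ev (t n)) (fun w => f n w ^ 2) z ^ 2 / z.im ^ 2 : ℝ) : ℂ) := by
    rw [← integral_complex_ofReal, v0]
    congr 1; funext z
    by_cases hz : z ∈ U
    · have := e1 z hz
      rw [show (Complex.im : ℂ → ℝ) = fun z => z.im from rfl, this]
      push_cast; ring
    · have : ψ z = 0 := Pool.Agent.TH294.RS.TF.zero hψ hz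
      rw [this]; simp
  have a2 : ∫ z, ((ψ z / z.im ^ 2 : ℝ) : ℂ) * Pool.Agent.TH294.RS.F4
      (Pool.Agent.TH294.RS.ww Complex.im
      (fun n => 1 / √(ev (t n))) (fun n z => (f n z : ℂ))) 0 0 0 0 n z =
      ((∫ z, ψ z * f n z ^ 4 / z.im ^ 2 : ℝ) : ℂ) := by
    rw [← integral_complex_ofReal]
    congr 1; funext z
    simp only [Pool.Agent.TH294.RS.F4, w0]
    push_cast; ring
  simp only [Function.comp_def]
  rw [a1, a2]
  rw [show (3 : ℂ) = ((3 : ℝ) : ℂ) by norm_num, ← Complex.ofReal_mul, ← Complex.ofReal_sub,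
    ← Complex.ofReal_mul, ← Complex.ofReal_sub, Complex.ofReal_re]

lemma lowerL {t : ℕ → ℝ} (ht : Tendsto t atTop atTop) {f : ℕ → ℂ → ℝ} {U : Set ℂ}
    (hU : IsOpen U) (hUH : U ⊆ HH) (hf : ∀ n, Eig U (t n) (f n)) (hq : QUE U t f)
    {ψ : ℂ → ℝ} (hψ : ContinuousOn ψ U) (h0 : ∀ z ∈ U, 0 ≤ ψ z) :
    ENNReal.ofReal (3 ^ 1) * ∫⁻ z in U, ENNReal.ofReal (ψ z / z.im ^ 2) ≤
      liminf (fun n => ∫⁻ z in U,
        ENNReal.ofReal (ψ z * f n z ^ (2 * (1 + 1)) / z.im ^ 2)) atTop := by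
  have hRD : ∀ n, RO (ev (t n)) =
      Pool.Agent.TH294.RS.DP (fun z => z.im) (1 / √(ev (t n))) := by
    intro n
    funext g z
    simp only [RO, Pool.Agent.TH294.RS.DP, Pool.Agent.TH294.RS.dd]
    push_cast
    ring
  have hraw : Pool.Agent.TH294.RS.Raw U (fun z => z.im) (fun n => 1 / √(ev (t n))) f := by
    refine ⟨fun n => by have := ev_pos (t n); positivity, ?_, him.contDiffOn,
      fun z hz => hUH hz, fun n => (hf n).1, fun n z hz => ?_, fun φ hφ k => ?_⟩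
    · have h1 : Tendsto (fun n => ev (t n)) atTop atTop :=
        tendsto_atTop_add_const_left _ _ ((tendsto_pow_atTop two_ne_zero).comp ht)
      have h2 : Tendsto (fun n => √(ev (t n))) atTop atTop :=
        Real.tendsto_sqrt_atTop.comp h1
      exact (h2.inv_tendsto_atTop).congr (fun n => by simp [one_div])
    · have h1 := (hf n).2 z hz
      have h5 := ev_pos (t n)
      have h2 : (1 / √(ev (t n))) ^ 2 = 1 / ev (t n) := by
        rw [div_pow, Real.sq_sqrt h5.le, one_pow]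
      show (1 / √(ev (t n))) ^ 2 * (z.im ^ 2 * (dx (dx (f n)) z + dy (dy (f n)) z)) +
        f n z = 0
      rw [h2]
      have h3 : z.im ^ 2 * (dx (dx (f n)) z + dy (dy (f n)) z) =
          - (ev (t n) * f n z) := by linarith
      rw [h3]
      field_simp
      ring
    · have hφ' := Pool.Agent.TH294.RS.TF.mulc hU hφ (him.pow 2).contDiffOn
      have h1 := hq _ hφ' k
      have e : ∀ z : ℂ, φ z * z.im ^ 2 / z.im ^ 2 = φ z := by
        intro z
        by_cases hz : z ∈ U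
        · have : z.im ≠ 0 := ne_of_gt (hUH hz)
          field_simp
        · rw [Pool.Agent.TH294.RS.TF.zero hφ hz]; simp
      simp only [e] at h1
      refine h1.congr fun n => ?_
      rw [hRD n]
  have him0 : ∀ z ∈ U, z.im ^ 2 ≠ 0 := fun z hz => by
    have : 0 < z.im := hUH hz
    positivity
  have key := hraw.fin hU 1 hU (le_refl U) (w := fun z => ψ z / z.im ^ 2)
    (hψ.div (him.continuous.continuousOn.pow 2) him0)
    (fun z hz => div_nonneg (h0 z hz) (sq_nonneg _))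
  refine key.trans_eq ?_
  congr 1
  funext n
  refine lintegral_congr fun z => ?_
  congr 1
  ring

/-- the local lower bound -/
lemma lower {t : ℕ → ℝ} (ht : Tendsto t atTop atTop) {f : ℕ → ℂ → ℝ} {U : Set ℂ}
    (hU : IsOpen U) (hUH : U ⊆ HH)
    (hf : ∀ n, Eig U (t n) (f n)) (hq : QUE U t f)
    {ψ : ℂ → ℝ} (hψ : TF U ψ) (h0 : ∀ z, 0 ≤ ψ z) {ε : ℝ} (hε : 0 < ε) :
    ∀ᶠ n in atTop, 3 * II U ψ - ε ≤ II U (fun z => ψ z * f n z ^ 4) := by
  have key := lowerL ht hU hUH hf hq hψ.1.continuous.continuousOn (fun z _ => h0 z)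
  have cf : ∀ n, ContinuousOn (fun z => f n z ^ 4) U := fun n =>
    (hf n).1.continuousOn.pow 4
  have p0 : 0 ≤ II U ψ := setIntegral_nonneg hU.measurableSet fun z hz =>
    div_nonneg (h0 z) (sq_nonneg _)
  have p4 : ∀ n, 0 ≤ II U (fun z => ψ z * f n z ^ 4) := fun n =>
    setIntegral_nonneg hU.measurableSet fun z hz => by
      have := h0 z
      positivity
  have i0 : IntegrableOn (fun z => ψ z / z.im ^ 2) U := by
    have := (tint hU hUH hψ (g := fun _ => 1) continuousOn_const).integrableOn (s := U)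
    simpa only [mul_one] using this
  have e0 : ∫⁻ z in U, ENNReal.ofReal (ψ z / z.im ^ 2) = ENNReal.ofReal (II U ψ) := by
    unfold II
    rw [ofReal_integral_eq_lintegral_ofReal i0]
    exact ae_of_all _ fun z => div_nonneg (h0 z) (sq_nonneg _)
  have e4 : ∀ n, ∫⁻ z in U, ENNReal.ofReal (ψ z * f n z ^ (2 * (1 + 1)) / z.im ^ 2) =
      ENNReal.ofReal (II U (fun z => ψ z * f n z ^ 4)) := by
    intro n
    unfold II
    rw [ofReal_integral_eq_lintegral_ofReal (tint hU hUH hψ (cf n)).integrableOn]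
    refine ae_of_all _ fun z => ?_
    have := h0 z
    show 0 ≤ ψ z * f n z ^ 4 / z.im ^ 2
    positivity
  rw [e0] at key
  simp only [e4] at key
  rw [← ENNReal.ofReal_mul (by norm_num)] at key
  by_cases hc : 3 * II U ψ - ε < 0
  · exact Eventually.of_forall fun n => hc.le.trans (p4 n)
  · rw [not_lt] at hc
    have h1 : ENNReal.ofReal (3 * II U ψ - ε) < ENNReal.ofReal (3 ^ 1 * II U ψ) := by
      rw [ENNReal.ofReal_lt_ofReal_iff (by linarith)]
      linarith
    have h2 := eventually_lt_of_lt_liminf (h1.trans_le key)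
    refine h2.mono fun n hn => ?_
    have h3 := (ENNReal.ofReal_lt_ofReal_iff_of_nonneg hc).1 hn
    exact h3.le

/-- exhaustion by bumps -/
lemma exhaust {U : Set ℂ} (hU : IsOpen U) (fin : IntegrableOn (fun z : ℂ => 1 / z.im ^ 2) U)
    {K : Set ℂ} (hK : IsCompact K) (hKU : K ⊆ U) {η : ℝ} (hη : 0 < η) :
    ∃ χ : ℂ → ℝ, TF U χ ∧ (∀ z, 0 ≤ χ z) ∧ (∀ z, χ z ≤ 1) ∧ (∀ z ∈ K, χ z = 1) ∧
      II U (fun _ => 1) - η ≤ II U χ := by
  obtain ⟨ν, hν⟩ : ∃ ν : Measure ℂ, ν = (volume.restrict U).withDensity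
    (fun z => ENNReal.ofReal (1 / z.im ^ 2)) := ⟨_, rfl⟩
  have nfin : ν U ≠ ⊤ := by
    rw [hν, withDensity_apply _ hU.measurableSet, Measure.restrict_restrict hU.measurableSet,
      Set.inter_self]
    exact (Integrable.lintegral_lt_top fin).ne
  obtain ⟨K1, hK1U, hK1, hK1η⟩ := hU.measurableSet.exists_isCompact_sdiff_lt (μ := ν) nfin
    (ε := ENNReal.ofReal η) (by simpa using hη)
  obtain ⟨χ, hχ, χ0, χ1, χK⟩ := Pool.Agent.K9h37.GF.bumpK hU (hK.union hK1)
    (Set.union_subset hKU hK1U)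
  refine ⟨χ, hχ, χ0, χ1, fun z hz => χK z (Or.inl hz), ?_⟩
  have mD : MeasurableSet (U \ K1) := hU.measurableSet.diff hK1.measurableSet
  have i0 : IntegrableOn (fun z => χ z / z.im ^ 2) U := by
    refine Integrable.mono' fin ?_ ?_
    · exact (hχ.1.continuous.measurable.div (by fun_prop)).aestronglyMeasurable
    · refine ae_of_all _ fun z => ?_
      rw [Real.norm_eq_abs, abs_of_nonneg (div_nonneg (χ0 z) (sq_nonneg _))]
      exact div_le_div_of_nonneg_right (χ1 z) (sq_nonneg _)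
  have h1 : II U (fun _ => 1) - II U χ = ∫ z in U, (1 - χ z) / z.im ^ 2 := by
    unfold II
    rw [← integral_sub fin i0]
    congr 1; funext z; ring
  have h2 : ∫ z in U, (1 - χ z) / z.im ^ 2 ≤ ∫ z in U \ K1, 1 / z.im ^ 2 := by
    rw [← integral_indicator hU.measurableSet, ← integral_indicator mD]
    refine integral_mono_of_nonneg (ae_of_all _ fun z => ?_) ?_ (ae_of_all _ fun z => ?_)
    · refine Set.indicator_nonneg (fun z _ => ?_) z
      exact div_nonneg (by linarith [χ1 z]) (sq_nonneg _)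
    · exact (fin.mono_set Set.sdiff_subset).integrable_indicator mD
    · by_cases hz : z ∈ U
      · by_cases hz1 : z ∈ K1
        · rw [Set.indicator_of_mem hz, Set.indicator_of_notMem (fun h => h.2 hz1),
            χK z (Or.inr hz1)]
          simp
        · rw [Set.indicator_of_mem hz, Set.indicator_of_mem (show z ∈ U \ K1 from ⟨hz, hz1⟩)]
          exact div_le_div_of_nonneg_right (by linarith [χ0 z]) (sq_nonneg _)
      · rw [Set.indicator_of_notMem hz, Set.indicator_of_notMem (fun h => hz h.1)]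
  have h3 : ∫ z in U \ K1, 1 / z.im ^ 2 ≤ η := by
    have e : ENNReal.ofReal (∫ z in U \ K1, 1 / z.im ^ 2) = ν (U \ K1) := by
      rw [hν, withDensity_apply _ mD, Measure.restrict_restrict mD,
        Set.inter_eq_left.2 Set.sdiff_subset,
        ofReal_integral_eq_lintegral_ofReal (fin.mono_set Set.sdiff_subset)
          (ae_of_all _ fun z => by positivity)]
    rw [← e] at hK1η
    exact ((ENNReal.ofReal_lt_ofReal_iff hη).1 hK1η).le
  linarith

lemma part1 {t : ℕ → ℝ} (ht : Tendsto t atTop atTop) {f : ℕ → ℂ → ℝ} {U : Set ℂ}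
    (hU : IsOpen U) (hUH : U ⊆ HH)
    (hf : ∀ n, Eig U (t n) (f n)) (hq : QUE U t f)
    (fin : IntegrableOn (fun z : ℂ => 1 / z.im ^ 2) U) (F : Polynomial ℝ)
    (hint : ∀ n, IntegrableOn
      (fun z => opF F (ev (t n)) (fun w => f n w ^ 2) z ^ 2 / z.im ^ 2) U)
    (φ : ℂ → ℝ) (hφ : TF U φ) (h1 : ∀ z, φ z ≤ 1) (ε : ℝ) (hε : 0 < ε) :
    ∀ᶠ n in atTop, gauss F * II U (fun _ => 1) + (2 * F.eval 0 ^ 2 + F.eval 4 ^ 2) / 3 *
      (II U (fun z => φ z * f n z ^ 4) - 3 * II U φ) - ε ≤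
        II U (fun z => opF F (ev (t n)) (fun w => f n w ^ 2) z ^ 2) := by
  obtain ⟨c, hc⟩ : ∃ c : ℝ, c = (2 * F.eval 0 ^ 2 + F.eval 4 ^ 2) / 3 := ⟨_, rfl⟩
  have c0 : 0 ≤ c := by rw [hc]; positivity
  have g0 : 0 ≤ gauss F := (sq_nonneg _).trans (gauss_ge F)
  have s0 : 0 < c + gauss F + 1 := by linarith
  obtain ⟨η, hη⟩ : ∃ η : ℝ, η = ε / (c + gauss F + 1) := ⟨_, rfl⟩
  have η0 : 0 < η := by rw [hη]; positivity
  have η1 : η * (c + gauss F + 1) = ε := by rw [hη]; field_simp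
  obtain ⟨χ, hχ, χ0, χ1, χK, χA⟩ := exhaust hU fin hφ.2.1.isCompact hφ.2.2 η0
  have cf : ∀ n, ContinuousOn (fun z => f n z ^ 4) U := fun n =>
    (hf n).1.continuousOn.pow 4
  have co : ∀ n, ContinuousOn (fun z => opF F (ev (t n)) (fun w => f n w ^ 2) z ^ 2) U := fun n =>
    (opF_cont hU F _ ((hf n).1.pow 2)).pow 2
  have sh := sharpU ht hU hUH hf hq χ hχ F
  have ev1 : ∀ᶠ n in atTop, gauss F * II U χ - η ≤
      II U (fun z => χ z * opF F (ev (t n)) (fun w => f n w ^ 2) z ^ 2) -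
        c * (II U (fun z => χ z * f n z ^ 4) - 3 * II U χ) := by
    have e1 : ∀ n, (∫ z, χ z * opF F (ev (t n)) (fun w => f n w ^ 2) z ^ 2 / z.im ^ 2) =
        II U (fun z => χ z * opF F (ev (t n)) (fun w => f n w ^ 2) z ^ 2) := fun n =>
      II_full hχ (fun z => opF F (ev (t n)) (fun w => f n w ^ 2) z ^ 2)
    have e2 : ∀ n, (∫ z, χ z * f n z ^ 4 / z.im ^ 2) = II U (fun z => χ z * f n z ^ 4) := fun n =>
      II_full hχ (fun z => f n z ^ 4)
    have e3 : ∫ z, χ z / z.im ^ 2 = II U χ := II_full1 hχ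
    simp only [e1, e2, e3] at sh
    have hlt : gauss F * II U χ - η < gauss F * II U χ := by linarith
    refine (sh.eventually (lt_mem_nhds hlt)).mono fun n hn => ?_
    rw [hc]
    exact hn.le
  have Td : TF U (fun z => χ z - φ z) := by
    have hs : Function.support (fun z => χ z - φ z) ⊆ tsupport χ ∪ tsupport φ := by
      intro z hz
      by_contra h
      rw [Set.mem_union, not_or] at h
      refine hz ?_
      show χ z - φ z = 0
      rw [image_eq_zero_of_notMem_tsupport h.1, image_eq_zero_of_notMem_tsupport h.2, sub_zero]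
    have hcc : IsCompact (tsupport χ ∪ tsupport φ) := hχ.2.1.isCompact.union hφ.2.1.isCompact
    exact ⟨hχ.1.sub hφ.1, HasCompactSupport.of_support_subset_isCompact hcc hs,
      (closure_minimal hs hcc.isClosed).trans (Set.union_subset hχ.2.2 hφ.2.2)⟩
  have d0 : ∀ z, 0 ≤ χ z - φ z := by
    intro z
    by_cases hz : z ∈ tsupport φ
    · rw [χK z hz]; linarith [h1 z]
    · rw [image_eq_zero_of_notMem_tsupport hz]; linarith [χ0 z]
  have ev2 := lower ht hU hUH hf hq Td d0 η0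
  have dA : II U (fun z => χ z - φ z) = II U χ - II U φ := by
    have := II_sub hU hUH hφ hχ (g := fun _ => 1) continuousOn_const
    simpa only [mul_one] using this
  filter_upwards [ev1, ev2] with n n1 n2
  rw [dA, II_sub hU hUH hφ hχ (cf n)] at n2
  have P : II U (fun z => χ z * opF F (ev (t n)) (fun w => f n w ^ 2) z ^ 2) ≤
      II U (fun z => opF F (ev (t n)) (fun w => f n w ^ 2) z ^ 2) := by
    unfold II
    refine setIntegral_mono_on (tint hU hUH hχ (co n)).integrableOn (hint n) hU.measurableSet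
      fun z _ => ?_
    refine div_le_div_of_nonneg_right ?_ (sq_nonneg _)
    exact mul_le_of_le_one_left (sq_nonneg _) (χ1 z)
  obtain ⟨X, hX⟩ : ∃ X : ℝ, X = II U (fun z => φ z * f n z ^ 4) - 3 * II U φ := ⟨_, rfl⟩
  rw [← hX, ← hc]
  have k1 : gauss F * (II U (fun _ => 1) - η) ≤ gauss F * II U χ :=
    mul_le_mul_of_nonneg_left χA g0
  have k2 : c * (X - η) ≤ c * (II U (fun z => χ z * f n z ^ 4) - 3 * II U χ) :=
    mul_le_mul_of_nonneg_left (by rw [hX]; linarith) c0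
  rw [← η1]
  nlinarith

/-- **Result.** Let `U` be an open subset of the upper half plane of finite area (for instance
`FD`, the interior of the standard fundamental domain of the modular group). Let `f n` be real
eigenfunctions of the hyperbolic Laplacian on `U`, quantum uniquely ergodic (microlocally) on `U`,
`t n → ∞`.

(1) Let `F` be a real polynomial such that `(F(L) f²)²` is integrable on `U`. For every test
function `φ` on `U` with `φ ≤ 1` (of any sign) and every `ε > 0`, for all large `n`,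
`∫_U (F(L) f²)² dμ ≥ gauss F μ(U) + (2 F(0)² + F(4)²)/3 (∫ φ f⁴ dμ - 3 ∫ φ dμ) - ε`.

(2) If for every `δ > 0` there is a real polynomial `F` with `2 F(0)² + F(4)² ≥ 1` such that
`∫_U (F(L) f²)² dμ ≤ F(0)² μ(U) + δ` for all large `n`, then `∫ φ f⁴ dμ → 3 ∫ φ dμ` for every test
function `φ` on `U`. Two examples: `F = (1 - x/4)^N`, which concerns the low frequencies of `f²`
only, and `F = (x/4)^N`, which concerns only the frequencies close to `4` and beyond. -/
theorem result : (IsOpen FD ∧ FD ⊆ HH ∧ IntegrableOn (fun z : ℂ => 1 / z.im ^ 2) FD) ∧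
    ∀ (t : ℕ → ℝ) (f : ℕ → ℂ → ℝ) (U : Set ℂ), Tendsto t atTop atTop → IsOpen U → U ⊆ HH →
    (∀ n, Eig U (t n) (f n)) → QUE U t f →
    IntegrableOn (fun z : ℂ => 1 / z.im ^ 2) U →
    (∀ F : Polynomial ℝ,
      (∀ n, IntegrableOn (fun z => opF F (ev (t n)) (fun w => f n w ^ 2) z ^ 2 / z.im ^ 2) U) →
      ∀ φ : ℂ → ℝ, TF U φ → (∀ z, φ z ≤ 1) → ∀ ε > 0, ∀ᶠ n in atTop,
        gauss F * II U (fun _ => 1) + (2 * F.eval 0 ^ 2 + F.eval 4 ^ 2) / 3 *
          (II U (fun z => φ z * f n z ^ 4) - 3 * II U φ) - ε ≤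
            II U (fun z => opF F (ev (t n)) (fun w => f n w ^ 2) z ^ 2)) ∧
    ((∀ δ > 0, ∃ F : Polynomial ℝ, 1 ≤ 2 * F.eval 0 ^ 2 + F.eval 4 ^ 2 ∧
        (∀ n, IntegrableOn (fun z => opF F (ev (t n)) (fun w => f n w ^ 2) z ^ 2 / z.im ^ 2) U) ∧
        ∀ᶠ n in atTop, II U (fun z => opF F (ev (t n)) (fun w => f n w ^ 2) z ^ 2) ≤
          F.eval 0 ^ 2 * II U (fun _ => 1) + δ) →
      ∀ φ : ℂ → ℝ, TF U φ →
        Tendsto (fun n => II U (fun z => φ z * f n z ^ 4)) atTop (𝓝 (3 * II U φ))) := by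
  refine ⟨⟨Pool.Agent.K9h37.GF.FD_open, fun z hz => hz.1, Pool.Agent.K9h37.GF.FD_fin⟩, ?_⟩
  intro t f U ht hU hUH hf hq fin
  have part1 := part1 ht hU hUH hf hq fin
  refine ⟨fun F hint φ hφ h1 ε hε => part1 F hint φ hφ h1 ε hε, fun h φ hφ => ?_⟩
  -- one side, for an arbitrary test function `≤ 1`
  have one : ∀ φ : ℂ → ℝ, TF U φ → (∀ z, φ z ≤ 1) → ∀ ε > 0, ∀ᶠ n in atTop,
      II U (fun z => φ z * f n z ^ 4) - 3 * II U φ ≤ ε := by
    intro φ hφ h1 ε hε
    obtain ⟨F, F0, hint, hF⟩ := h (ε / 6) (by positivity)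
    have key := part1 F hint φ hφ h1 (ε / 6) (by positivity)
    have hg := gauss_ge F
    have A0 : 0 ≤ II U (fun _ => 1) := setIntegral_nonneg hU.measurableSet fun z hz => by positivity
    have hgA : F.eval 0 ^ 2 * II U (fun _ => 1) ≤ gauss F * II U (fun _ => 1) :=
      mul_le_mul_of_nonneg_right hg A0
    filter_upwards [key, hF] with n k1 k3
    obtain ⟨X, hX⟩ : ∃ X : ℝ, X = II U (fun z => φ z * f n z ^ 4) - 3 * II U φ := ⟨_, rfl⟩
    rw [← hX] at k1
    rw [← hX]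
    obtain ⟨c, hc⟩ : ∃ c : ℝ, c = (2 * F.eval 0 ^ 2 + F.eval 4 ^ 2) / 3 := ⟨_, rfl⟩
    rw [← hc] at k1
    have c1 : 1 / 3 ≤ c := by
      rw [hc]; linarith
    have k5 : c * X ≤ 1 / 3 * ε := by linarith
    by_contra hcon
    rw [not_le] at hcon
    nlinarith
  obtain ⟨D, hD⟩ := hφ.2.1.exists_bound_of_continuous hφ.1.continuous
  obtain ⟨B, hB⟩ : ∃ B : ℝ, B = |D| + 1 := ⟨_, rfl⟩
  have B0 : 0 < B := by rw [hB]; positivity
  have hB' : ∀ z, |φ z| ≤ B := fun z => by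
    have h1 : ‖φ z‖ ≤ D := hD z
    rw [Real.norm_eq_abs] at h1
    have := le_abs_self D
    linarith
  have sc : ∀ s : ℝ, TF U (fun z => s * φ z) := fun s =>
    ⟨contDiff_const.mul hφ.1, hφ.2.1.mul_left,
      (closure_mono (Function.support_mul_subset_right _ _)).trans hφ.2.2⟩
  have scI : ∀ (s : ℝ) (g : ℂ → ℝ), II U (fun z => s * φ z * g z) =
      s * II U (fun z => φ z * g z) := by
    intro s g
    unfold II
    rw [← integral_const_mul]
    congr 1; funext z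
    show s * φ z * g z / z.im ^ 2 = s * (φ z * g z / z.im ^ 2)
    ring
  have scI1 : ∀ s : ℝ, II U (fun z => s * φ z) = s * II U φ := by
    intro s
    have := scI s (fun _ => 1)
    simpa only [mul_one] using this
  rw [Metric.tendsto_atTop']
  intro ε hε
  have up := one _ (sc B⁻¹) (fun z => by
    have := (abs_le.1 (hB' z)).2
    rw [inv_mul_le_iff₀ B0]; linarith) (ε / (2 * B)) (by positivity)
  have dn := one _ (sc (-B⁻¹)) (fun z => by
    have h1 := (abs_le.1 (hB' z)).1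
    have h2 : B⁻¹ * (-φ z) ≤ 1 := by
      rw [inv_mul_le_iff₀ B0]; linarith
    have h3 : -B⁻¹ * φ z = B⁻¹ * (-φ z) := by ring
    rw [h3]; exact h2) (ε / (2 * B)) (by positivity)
  obtain ⟨N, hN⟩ := eventually_atTop.1 (up.and dn)
  refine ⟨N, fun n hn => ?_⟩
  obtain ⟨k1, k2⟩ := hN n hn.le
  rw [scI B⁻¹ (fun z => f n z ^ 4), scI1] at k1
  rw [scI (-B⁻¹) (fun z => f n z ^ 4), scI1] at k2
  obtain ⟨X, hX⟩ : ∃ X : ℝ, X = II U (fun z => φ z * f n z ^ 4) - 3 * II U φ := ⟨_, rfl⟩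
  have e1 : B⁻¹ * II U (fun z => φ z * f n z ^ 4) - 3 * (B⁻¹ * II U φ) = X / B := by
    rw [hX]; field_simp
  have e2 : -B⁻¹ * II U (fun z => φ z * f n z ^ 4) - 3 * (-B⁻¹ * II U φ) = -X / B := by
    rw [hX]; field_simp; ring
  have e3 : ε / (2 * B) = (ε / 2) / B := by field_simp
  rw [e1, e3, div_le_div_iff_of_pos_right B0] at k1
  rw [e2, e3, div_le_div_iff_of_pos_right B0] at k2
  rw [Real.dist_eq, ← hX, abs_lt]
  constructor <;> linarith

end

end Pool.Agent.Results.MP_a54f13_nt.GlobalPowerSpectrum
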