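import Pool.Agent.K9h11.MV.W4

/-!
# The fourth moment and the variance of the mass at the scale of the wavelength (MP_a54f13_nt)

The plane is `ℂ`, with the upper half plane `HH` and `dμ = dx dy / y²`. `dx f z`, `dy f z` are the
partial derivatives `fderiv ℝ f z 1`, `fderiv ℝ f z I`; `TF U φ` says that `φ : ℂ → ℝ` is smooth
with compact support contained in `U`. `RO lam f = lam^{-1/2} y (∂x f - i ∂y f)` is the normalised
frame derivative. The hypothesis `hqe` is quantum unique ergodicity in its microlocal form: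
`∫ φ f (RO^k f) dμ → ∫ φ dμ` for `k = 0`, and `→ 0` for `k ≥ 1`.

`mean χ s g z = ∫ χ(v) g(z + s (Im z) v) dv` is the mean of `g` near the point `z` at the
(hyperbolic) distance `s`, with the kernel `χ`. We use it at the scale `s = R / √(1/4 + t_n²)`, that
is `R` wavelengths (up to a constant). The kernels are radial, for instance the normalised
indicator function of the unit disc or of an annulus: see `Kernel`.

For a fixed `R` (no limit `R → ∞` is taken) we compare the mean square of `M_R = mean of f_n²` with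
the fourth moment of `f_n`. `Gam χ R` is the value of `E[M_R²]` for the Gaussian random wave.

(1) `liminf ∫ ψ M_R² dμ ≥ Gam χ R ∫ ψ dμ` for all test functions `ψ ≥ 0`, with no assumption on the
moments of `f_n`: the local mass fluctuates at least as much as for the random wave.

(2) The case `n = 4` of the random wave conjecture on an open set `U` holds if and only if
`limsup ∫ ψ M_R² dμ ≤ Gam χ R ∫ ψ dμ` for all test functions `ψ ≥ 0` on `U`.

(3) More generally `f_n⁴ dμ → 3 dμ + dν` on `U` if and only if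
`M_R² dμ → Gam χ R dμ + gam χ R dν` on `U`.

Proof idea. For a smooth radial kernel the mean is `G(L) f_n²` up to `o(1)` in `L²`, for an entire
function `G` of the Laplacian (Pizzetti's formula with remainder, comparison of the flat and the
hyperbolic Laplacian), and the starting result `SharpPowerSpectrum` computes `∫ ψ (F(L) f²)² dμ` for
polynomials `F`. General kernels are approximated in `L¹`. This needs bounded fourth moments on the
compact subsets of `U`, which follow from bounds of the mean squares of `M_R` by Ladyzhenskaya's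
inequality and the energy identity on discs whose radius is a small multiple of the scale. For (1)
one passes to a subsequence for which `∫ ψ M_R² dμ` is bounded, and works on the set `{ψ > 0}`.
-/

set_option autoImplicit false
open MeasureTheory Filter Topology Complex
open scoped ContDiff

namespace Pool.Agent.Results.MP_a54f13_nt.VarianceOfLocalMass

open Pool.Agent.W745.RW (TF dx dy lap)

/-- the open upper half plane -/
def HH : Set ℂ := {z | 0 < z.im}

/-- the operator `f ↦ lam^{-1/2} y (∂x f - i ∂y f)` -/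
noncomputable def RO (lam : ℝ) (f : ℂ → ℂ) (z : ℂ) : ℂ :=
  ((z.im / √lam : ℝ) : ℂ) * (dx f z - I * dy f z)

/-- the mean of `g` near `z` at the hyperbolic distance `s`, with the kernel `χ`:
`∫ χ(v) g(z + s (Im z) v) dv` -/
noncomputable def mean (χ : ℂ → ℝ) (s : ℝ) (g : ℂ → ℝ) (z : ℂ) : ℝ :=
  ∫ v, χ v * g (z + ((s * z.im : ℝ) : ℂ) * v)

/-- the kernels: measurable, bounded, radial, nonnegative, with bounded support and integral one,
and bounded from below by a positive constant on some disc -/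
structure Kernel (χ : ℂ → ℝ) : Prop where
  meas : Measurable χ
  bdd : ∃ M : ℝ, ∀ v, |χ v| ≤ M
  radial : ∀ v w, ‖v‖ = ‖w‖ → χ v = χ w
  nonneg : ∀ v, 0 ≤ χ v
  supp : ∃ r : ℝ, ∀ v, r < ‖v‖ → χ v = 0
  total : ∫ v, χ v = 1
  low : ∃ (v₀ : ℂ) (r c : ℝ), 0 < r ∧ 0 < c ∧ ∀ v ∈ Metric.closedBall v₀ r, c ≤ χ v

/-- the Fourier transform of a radial kernel at a frequency of modulus `ξ` -/
noncomputable def ft (χ : ℂ → ℝ) (ξ : ℝ) : ℝ := ∫ v : ℂ, χ v * Real.cos (ξ * v.re)

/-- `1 + π⁻¹ ∫_0^{2π} ft (R √(2 - 2 cos θ))² dθ` -/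
noncomputable def Gam (χ : ℂ → ℝ) (R : ℝ) : ℝ := 1 + 1 / Real.pi *
  ∫ θ in (0 : ℝ)..(2 * Real.pi), ft χ (R * √(2 - 2 * Real.cos θ)) ^ 2

/-- `(2 + ft (2R)²) / 3` -/
noncomputable def gam (χ : ℂ → ℝ) (R : ℝ) : ℝ := (2 + ft χ (2 * R) ^ 2) / 3

/-- **Result.** Let `f n` be real solutions of `-y²(∂x² + ∂y²) f = (1/4 + t_n²) f` on the upper
half plane, `t_n → ∞`, satisfying microlocal quantum unique ergodicity. Let `χ` be a radial kernel,
`R > 0`, and let `M_R` be the mean of `f_n²` at `R` wavelengths.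

(1) For every test function `ψ ≥ 0`, `liminf ∫ ψ M_R² dμ ≥ Gam χ R ∫ ψ dμ`.

(2) For every open set `U` of the upper half plane, `∫ ψ f_n⁴ dμ → 3 ∫ ψ dμ` for all test functions
`ψ` on `U` if and only if `limsup ∫ ψ M_R² dμ ≤ Gam χ R ∫ ψ dμ` for all test functions `ψ ≥ 0` on
`U`.

(3) For every such `U` and every measure `ν` which is finite on the compact subsets of `U`,
`∫ ψ f_n⁴ dμ → 3 ∫ ψ dμ + ∫ ψ dν` for all test functions `ψ` on `U` if and only if
`∫ ψ M_R² dμ → Gam χ R ∫ ψ dμ + gam χ R ∫ ψ dν` for all test functions `ψ` on `U`. -/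
theorem result (t : ℕ → ℝ) (ht : Tendsto t atTop atTop) (f : ℕ → ℂ → ℝ)
    (hf : ∀ n, ContDiffOn ℝ ∞ (f n) HH)
    (heq : ∀ n, ∀ z ∈ HH,
      -(z.im ^ 2 * (dx (dx (f n)) z + dy (dy (f n)) z)) = (1 / 4 + t n ^ 2) * f n z)
    (hqe : ∀ φ, TF HH φ → ∀ k : ℕ, Tendsto (fun n => ∫ z, ((φ z / z.im ^ 2 : ℝ) : ℂ) *
      ((f n z : ℂ) * (RO (1 / 4 + t n ^ 2))^[k] (fun w => (f n w : ℂ)) z)) atTop
      (𝓝 (if k = 0 then ((∫ z, φ z / z.im ^ 2 : ℝ) : ℂ) else 0)))
    (χ : ℂ → ℝ) (hχ : Kernel χ) (R : ℝ) (hR : 0 < R) :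
    (∀ ψ, TF HH ψ → (∀ z, 0 ≤ ψ z) → ∀ ε : ℝ, 0 < ε → ∀ᶠ n in atTop,
      Gam χ R * (∫ z, ψ z / z.im ^ 2) - ε ≤
        ∫ z, ψ z * mean χ (R / √(1 / 4 + t n ^ 2)) (fun w => f n w ^ 2) z ^ 2 / z.im ^ 2) ∧
    (∀ U : Set ℂ, IsOpen U → U ⊆ HH →
      ((∀ ψ, TF U ψ → Tendsto (fun n => ∫ z, ψ z * f n z ^ 4 / z.im ^ 2) atTop
        (𝓝 (3 * ∫ z, ψ z / z.im ^ 2))) ↔
      (∀ ψ, TF U ψ → (∀ z, 0 ≤ ψ z) → ∀ ε : ℝ, 0 < ε → ∀ᶠ n in atTop,
        ∫ z, ψ z * mean χ (R / √(1 / 4 + t n ^ 2)) (fun w => f n w ^ 2) z ^ 2 / z.im ^ 2 ≤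
          Gam χ R * (∫ z, ψ z / z.im ^ 2) + ε))) ∧
    (∀ U : Set ℂ, IsOpen U → U ⊆ HH → ∀ ν : Measure ℂ,
      (∀ K : Set ℂ, IsCompact K → K ⊆ U → ν K < ⊤) →
      ((∀ ψ, TF U ψ → Tendsto (fun n => ∫ z, ψ z * f n z ^ 4 / z.im ^ 2) atTop
        (𝓝 (3 * (∫ z, ψ z / z.im ^ 2) + ∫ z, ψ z ∂ν))) ↔
      (∀ ψ, TF U ψ → Tendsto (fun n =>
        ∫ z, ψ z * mean χ (R / √(1 / 4 + t n ^ 2)) (fun w => f n w ^ 2) z ^ 2 / z.im ^ 2) atTop
        (𝓝 (Gam χ R * (∫ z, ψ z / z.im ^ 2) + gam χ R * ∫ z, ψ z ∂ν))))) := by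
  have hΩ : IsOpen HH := isOpen_lt continuous_const continuous_im
  have sy2 : ContDiffOn ℝ ∞ (fun z : ℂ => z.im ^ 2) HH := (imCLM.contDiff.pow 2).contDiffOn
  have tw : ∀ w, TF HH w → TF HH fun z => w z * z.im ^ 2 := fun w hw =>
    Pool.Agent.TH294.RS.TF.mulc hΩ hw sy2
  have ez : ∀ w, TF HH w → ∀ z, w z * z.im ^ 2 / z.im ^ 2 = w z := by
    intro w hw z
    by_cases hz : z ∈ HH
    · have : z.im ≠ 0 := ne_of_gt hz
      field_simp
    · rw [Pool.Agent.TH294.RS.TF.zero hw hz]; ring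
  have ez2 : ∀ w, TF HH w → ∀ (x : ℝ) (z : ℂ), w z * z.im ^ 2 * x / z.im ^ 2 = w z * x := by
    intro w hw x z
    rw [mul_div_right_comm, ez w hw]
  have S : Pool.Agent.K9h11.MV.Sy (fun n => 1 / 4 + t n ^ 2) f := by
    refine ⟨fun n => by positivity,
      tendsto_atTop_add_const_left _ _ ((tendsto_pow_atTop two_ne_zero).comp ht), hf,
      fun w hw F => ?_, fun w hw => ?_⟩
    · have h := Pool.Agent.Results.MP_a54f13_nt.SharpPowerSpectrum.result t ht f hf heq hqe _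
        (tw w hw) F
      simp only [ez w hw, ez2 w hw] at h
      exact h
    · have h := hqe _ (tw w hw) 0
      have h2 := (Complex.continuous_re.tendsto _).comp h
      simp only [ez w hw, if_true, Complex.ofReal_re, Function.iterate_zero, id] at h2
      refine h2.congr fun n => ?_
      simp only [Function.comp_def]
      have e : ∀ z, ((w z : ℝ) : ℂ) * ((f n z : ℂ) * (f n z : ℂ)) =
          ((w z * f n z ^ 2 : ℝ) : ℂ) := fun z => by push_cast; ring
      simp only [e]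
      rw [integral_complex_ofReal, Complex.ofReal_re]
  have heq' : ∀ n, ∀ z ∈ Pool.Agent.K9h11.MV.HH,
      z.im ^ 2 * lap (f n) z + (1 / 4 + t n ^ 2) * f n z = 0 := by
    intro n z hz
    have h1 := heq n z hz
    have h2 : lap (f n) z = dx (dx (f n)) z + dy (dy (f n)) z := rfl
    rw [h2]; linarith
  -- the kernel
  obtain ⟨r₁, hr₁⟩ := hχ.supp
  obtain ⟨v₀, r₀, c₀, hr₀, hc₀, hlow⟩ := hχ.low
  have hρ : (1:ℝ) ≤ max r₁ 1 := le_max_right _ _
  have hker : Pool.Agent.K9h11.MV.RKer (max r₁ 1) χ :=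
    ⟨hχ.meas, hχ.bdd, fun v hv => hr₁ v (lt_of_le_of_lt (le_max_left _ _) hv), hχ.radial⟩
  have e0 : Pool.Agent.K9h11.MV.GG χ 0 = 1 := by
    rw [Pool.Agent.K9h11.MV.GG_zero]; exact hχ.total
  have eG : Pool.Agent.K9h11.MV.G0 χ R = Gam χ R := by
    unfold Pool.Agent.K9h11.MV.G0
    rw [e0, one_pow]
    rfl
  have eg : Pool.Agent.K9h11.MV.g0 χ R = gam χ R := by
    unfold Pool.Agent.K9h11.MV.g0 gam
    rw [e0, mul_comm R 2, one_pow, mul_one]
    rfl
  have hg : 0 < Pool.Agent.K9h11.MV.g0 χ R := by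
    rw [eg]; unfold gam; positivity
  have p1 : ∀ (ψ : ℂ → ℝ) (x : ℝ) (z : ℂ), ψ z * (z.im ^ 2)⁻¹ * x = ψ z * x / z.im ^ 2 :=
    fun ψ x z => by ring
  have p2 : ∀ (ψ : ℂ → ℝ) (z : ℂ), ψ z * (z.im ^ 2)⁻¹ = ψ z / z.im ^ 2 := fun ψ z => by ring
  refine ⟨?_, fun U hU hUH => ?_, fun U hU hUH ν hν => ?_⟩
  · have k := (Pool.Agent.K9h11.MV.all_wU0 (U := HH) hΩ subset_rfl (fun w => ∀ ε : ℝ, 0 < ε →
      ∀ᶠ n in atTop, Pool.Agent.K9h11.MV.G0 χ R * (∫ z, w z) - ε ≤
        ∫ z, w z * Pool.Agent.K9h11.MV.avg χ (R / √(1 / 4 + t n ^ 2))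
          (fun u => f n u ^ 2) z ^ 2)).1 fun w hw hw0 ε hε =>
        S.lowM heq' hker hχ.nonneg hρ hr₀ hc₀ hlow hg hR hw hw0 hε
    intro ψ hψ hψ0 ε hε
    have h := k ψ hψ hψ0 ε hε
    simp only [p1, eG] at h
    simp only [p2] at h
    exact h
  · have key := S.oneM (U := U) hU hUH heq' hker hχ.nonneg hρ hr₀ hc₀ hlow hg hR
    have k1 := Pool.Agent.K9h11.MV.all_wU hU hUH (fun w => Tendsto (fun n => ∫ z, w z * f n z ^ 4)
      atTop (𝓝 (3 * ∫ z, w z)))
    have k2 := Pool.Agent.K9h11.MV.all_wU0 hU hUH (fun w => ∀ ε : ℝ, 0 < ε → ∀ᶠ n in atTop,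
      ∫ z, w z * Pool.Agent.K9h11.MV.avg χ (R / √(1 / 4 + t n ^ 2))
        (fun u => f n u ^ 2) z ^ 2 ≤ Pool.Agent.K9h11.MV.G0 χ R * (∫ z, w z) + ε)
    have k3 := k1.symm.trans (key.trans k2)
    simp only [p1, eG] at k3
    simp only [p2] at k3
    exact k3
  · -- the functional
    have hint : ∀ w, TF U w → Integrable (fun z => w z * z.im ^ 2) ν := by
      intro w hw
      have h1 : TF U fun z => w z * z.im ^ 2 :=
        Pool.Agent.TH294.RS.TF.mulc hU hw (sy2.mono hUH)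
      have hsup : Function.support (fun z => w z * z.im ^ 2) ⊆
          tsupport fun z => w z * z.im ^ 2 := subset_tsupport _
      rw [← integrableOn_iff_integrable_of_support_subset hsup]
      obtain ⟨M, hM⟩ := h1.1.continuous.bounded_above_of_compact_support h1.2.1
      exact Measure.integrableOn_of_bounded (hν _ h1.2.1 h1.2.2).ne
        h1.1.continuous.aestronglyMeasurable (ae_of_all _ hM)
    have key := S.equiFM (U := U) hU hUH heq' hker hχ.nonneg hρ hr₀ hc₀ hlow hg hR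
      (Λ := fun w => ∫ z, w z * z.im ^ 2 ∂ν)
      (fun a b ha hb c => by
        show ∫ z, (a z + c * b z) * z.im ^ 2 ∂ν = _
        rw [← integral_const_mul, ← integral_add (hint a ha) ((hint b hb).const_mul c)]
        congr 1
        funext z
        ring)
    have eν : ∀ ψ, TF U ψ → ∫ z, ψ z * (z.im ^ 2)⁻¹ * z.im ^ 2 ∂ν = ∫ z, ψ z ∂ν := by
      intro ψ hψ
      congr 1
      funext z
      by_cases hz : z ∈ U
      · have : z.im ≠ 0 := ne_of_gt (hUH hz)
        field_simp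
      · rw [Pool.Agent.TH294.RS.TF.zero hψ hz]; ring
    have k1 := Pool.Agent.K9h11.MV.all_wU hU hUH (fun w => Tendsto (fun n => ∫ z, w z * f n z ^ 4)
      atTop (𝓝 (3 * (∫ z, w z) + ∫ z, w z * z.im ^ 2 ∂ν)))
    have k2 := Pool.Agent.K9h11.MV.all_wU hU hUH (fun w => Tendsto (fun n =>
      ∫ z, w z * Pool.Agent.K9h11.MV.avg χ (R / √(1 / 4 + t n ^ 2))
        (fun u => f n u ^ 2) z ^ 2) atTop (𝓝 (Pool.Agent.K9h11.MV.G0 χ R * (∫ z, w z) +
        Pool.Agent.K9h11.MV.g0 χ R * ∫ z, w z * z.im ^ 2 ∂ν)))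
    have key' := k1.symm.trans (key.trans k2)
    constructor
    · intro h
      have h3 := key'.1 (fun ψ hψ => by
        have h4 := h ψ hψ
        simp only [eν ψ hψ]
        simp only [p1]
        simpa only [p2] using h4)
      intro ψ hψ
      have h5 := h3 ψ hψ
      simp only [eν ψ hψ] at h5
      simp only [p1, eG, eg] at h5
      simp only [p2] at h5
      exact h5
    · intro h
      have h3 := key'.2 (fun ψ hψ => by
        have h4 := h ψ hψ
        simp only [eν ψ hψ]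
        simp only [p1, eG, eg]
        simp only [p2]
        exact h4)
      intro ψ hψ
      have h5 := h3 ψ hψ
      simp only [eν ψ hψ] at h5
      simp only [p1] at h5
      simpa only [p2] using h5

end Pool.Agent.Results.MP_a54f13_nt.VarianceOfLocalMass
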